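import Pool.Agent.H52.V.S8.TH842.A3.Final

/-!
Relations between consecutive terms of arbitrary bounded integer expansions of real algebraic
numbers: the common generalisation of `Out5.relations5` (digits) and `Out5.expansions5`.
-/

set_option autoImplicit false

namespace Pool.Agent.TH842.A3.Uni

open Finset Filter Topology Polynomial
open Pool.Agent.H393R2.DC (Dn dlt)
open Pool.Agent.TH842.A3
open Pool.Agent.TH842.A3.Out5 (absorb3 absorbJ main_alg)
open Pool.Agent.W44 (shift rel rel_apply rel_mul rel_X_sub rel_C_mul div_step)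

/-- `g i` is a bounded integer expansion of `α i` with remainders `W i` -/
structure Exps {n : ℕ} (b : ℕ) (α : Fin n → ℝ) (g W : Fin n → ℕ → ℤ) (G : ℤ) (M0 : ℝ) : Prop where
  step : ∀ i k, W i (k + 1) = b * W i k + g i (k + 1)
  bd : ∀ i k, |g i k| ≤ G
  app : ∀ i k, |(W i k : ℝ) - (b : ℝ) ^ k * α i| ≤ M0

theorem tuple_relations (hG : MG5) {n : ℕ} (α : Fin n → ℝ) (halg : ∀ i, IsAlgebraic ℚ (α i))
    (b : ℕ) (hb : 2 ≤ b) (g W : Fin n → ℕ → ℤ) (G : ℤ) (M0 : ℝ) (hE : Exps b α g W G M0)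
    (m : ℕ) (q : Fin n → ℕ → ℤ) (e : ℤ)
    (hirr : Irrational (∑ i, ((∑ j ∈ range (m + 1), q i j * (b : ℤ) ^ j : ℤ) : ℝ) * α i)) :
    ∃ c : ℝ, 0 < c ∧ ∃ N0 : ℕ, ∀ N : ℕ, N0 ≤ N →
      c * (Real.log N) ^ 3 / (Real.log (Real.log N)) ^ 5 ≤
        (((Icc 1 N).filter (fun k : ℕ =>
          ∑ i, ∑ j ∈ range (m + 1), q i j * g i (k + j) ≠ e)).card : ℝ) := by
  set x : ℝ := ∑ i, ((∑ j ∈ range (m + 1), q i j * (b : ℤ) ^ j : ℤ) : ℝ) * α i with hx
  have hb0 : (0 : ℝ) < b := by positivity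
  have hb2 : (2 : ℝ) ≤ b := by exact_mod_cast hb
  have hb1 : (0 : ℝ) ≤ (b : ℝ) - 1 := by linarith
  have hbZ : ((b : ℤ) - 1) ≠ 0 := by
    have : (2 : ℤ) ≤ b := by exact_mod_cast hb
    omega
  have hxalg : IsAlgebraic ℚ x := by
    rw [hx]
    apply Subalgebra.algebraicClosure ℚ ℝ |>.sum_mem
    intro i _
    have h1 : IsAlgebraic ℚ (((∑ j ∈ range (m + 1), q i j * (b : ℤ) ^ j : ℤ)) : ℝ) :=
      isAlgebraic_intCast (R := ℚ) (A := ℝ) _
    exact h1.mul (halg i)
  have hWs : ∀ i k, W i (k + 1) = b * W i k + g i (k + 1) := hE.step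
  set Y : ℕ → ℤ := fun k => ((b : ℤ) - 1) * ∑ i, ∑ j ∈ range (m + 1), q i j * W i (k + j) + e
    with hY
  have hYs : ∀ k, Y (k + 1) - b * Y k =
      ((b : ℤ) - 1) * (∑ i, ∑ j ∈ range (m + 1), q i j * g i (k + 1 + j) - e) := by
    intro k
    have h1 : ∑ i, ∑ j ∈ range (m + 1), q i j * W i (k + 1 + j) =
        b * ∑ i, ∑ j ∈ range (m + 1), q i j * W i (k + j) +
          ∑ i, ∑ j ∈ range (m + 1), q i j * g i (k + 1 + j) := by
      rw [Finset.mul_sum, ← Finset.sum_add_distrib]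
      apply Finset.sum_congr rfl
      intro i _
      rw [Finset.mul_sum, ← Finset.sum_add_distrib]
      apply Finset.sum_congr rfl
      intro j _
      have e1 : k + 1 + j = k + j + 1 := by ring
      rw [e1, hWs i (k + j)]
      ring
    simp only [hY]
    rw [h1]
    ring
  set M : ℝ := ((b : ℝ) - 1) * ∑ i, ∑ j ∈ range (m + 1), |(q i j : ℝ)| * M0 + |(e : ℝ)| with hM
  have hYa : ∀ k, |(Y k : ℝ) - (b : ℝ) ^ k * ((((b : ℤ) - 1 : ℤ) : ℝ) * x)| ≤ M := by
    intro k
    have e1 : (Y k : ℝ) - (b : ℝ) ^ k * ((((b : ℤ) - 1 : ℤ) : ℝ) * x) =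
        ((b : ℝ) - 1) * ∑ i, ∑ j ∈ range (m + 1), (q i j : ℝ) *
          ((W i (k + j) : ℝ) - (b : ℝ) ^ (k + j) * α i) + e := by
      have e2 : ∑ i, ∑ j ∈ range (m + 1), (q i j : ℝ) *
          ((W i (k + j) : ℝ) - (b : ℝ) ^ (k + j) * α i) =
          ∑ i, ∑ j ∈ range (m + 1), (q i j : ℝ) * (W i (k + j) : ℝ) - (b : ℝ) ^ k * x := by
        rw [hx, Finset.mul_sum, ← Finset.sum_sub_distrib]
        apply Finset.sum_congr rfl
        intro i _
        push_cast
        rw [Finset.sum_mul, Finset.mul_sum, ← Finset.sum_sub_distrib]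
        apply Finset.sum_congr rfl
        intro j _
        rw [pow_add]; ring
      rw [e2]
      simp only [hY]
      push_cast
      ring
    rw [e1]
    refine (abs_add_le _ _).trans ?_
    rw [hM]
    apply add_le_add _ le_rfl
    rw [abs_mul, abs_of_nonneg hb1]
    apply mul_le_mul_of_nonneg_left _ hb1
    refine (Finset.abs_sum_le_sum_abs _ _).trans ?_
    apply Finset.sum_le_sum
    intro i _
    refine (Finset.abs_sum_le_sum_abs _ _).trans ?_
    apply Finset.sum_le_sum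
    intro j _
    rw [abs_mul]
    exact mul_le_mul_of_nonneg_left (hE.app i (k + j)) (abs_nonneg _)
  obtain ⟨c, hc, N0, hN0⟩ := main_alg hG x hxalg hirr b hb ((b : ℤ) - 1) hbZ M Y hYa
  obtain ⟨c', hc', N1, hN1⟩ := absorb3 c hc
  refine ⟨c', hc', max N0 N1, fun N hN => ?_⟩
  refine hN1 N (le_trans (le_max_right _ _) hN) _ ((hN0 N (le_trans (le_max_left _ _) hN)).trans ?_)
  have hsub : Dn b Y N ⊆ insert 0 ((Icc 1 N).filter (fun k : ℕ =>
      ∑ i, ∑ j ∈ range (m + 1), q i j * g i (k + j) ≠ e)) := by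
    intro k hk
    unfold Dn at hk
    rw [Finset.mem_filter, Finset.mem_range] at hk
    rw [Finset.mem_insert, Finset.mem_filter, Finset.mem_Icc]
    cases k with
    | zero => exact Or.inl rfl
    | succ k =>
      right
      refine ⟨⟨by omega, by omega⟩, fun h => hk.2 ?_⟩
      have h1 := hYs k
      rw [h, sub_self, mul_zero] at h1
      simp only [dlt]
      exact h1
  have h1 := Finset.card_le_card hsub
  have h2 := Finset.card_insert_le 0 ((Icc 1 N).filter (fun k : ℕ =>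
    ∑ i, ∑ j ∈ range (m + 1), q i j * g i (k + j) ≠ e))
  have h3 : (Dn b Y N).card ≤ ((Icc 1 N).filter (fun k : ℕ =>
    ∑ i, ∑ j ∈ range (m + 1), q i j * g i (k + j) ≠ e)).card + 1 := h1.trans h2
  exact_mod_cast h3

/-- every nontrivial relation between the terms of expansions of an independent tuple, polynomial
form -/
theorem tuple_all (hG : MG5) {n : ℕ} (α : Fin n → ℝ) (halg : ∀ i, IsAlgebraic ℚ (α i))
    (hind : ∀ z : Fin n → ℤ, z ≠ 0 → Irrational (∑ i, (z i : ℝ) * α i))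
    (b : ℕ) (hb : 2 ≤ b) (g W : Fin n → ℕ → ℤ) (G : ℤ) (M0 : ℝ) (hE : Exps b α g W G M0) :
    ∀ (m : ℕ) (Q : Fin n → ℤ[X]), (∃ i, Q i ≠ 0) →
    (∀ i, (Q i).natDegree ≤ m) → ∀ e : ℤ,
    ∃ c : ℝ, 0 < c ∧ ∃ N0 : ℕ, ∀ N : ℕ, N0 ≤ N →
      c * (Real.log N) ^ 3 / (Real.log (Real.log N)) ^ 5 ≤
        (((Icc 1 N).filter (fun k : ℕ =>
          ∑ i, rel (Q i) (g i) k ≠ e)).card : ℝ) := by
  intro m
  induction m with
  | zero =>
    intro Q hQ hdeg e
    have hev : (fun i => ∑ j ∈ range (0 + 1), (Q i).coeff j * (b : ℤ) ^ j) ≠ 0 := by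
      obtain ⟨i, hi⟩ := hQ
      intro h
      apply hi
      have h1 := congrFun h i
      simp only [Finset.sum_range_one, pow_zero, mul_one, Pi.zero_apply, zero_add] at h1
      rw [Polynomial.eq_C_of_natDegree_le_zero (hdeg i), h1, C_0]
    obtain ⟨c, hc, N0, h⟩ := tuple_relations hG α halg b hb g W G M0 hE 0
      (fun i j => (Q i).coeff j) e (hind _ hev)
    refine ⟨c, hc, N0, fun N hN => (h N hN).trans (le_of_eq ?_)⟩
    congr 2
    apply Finset.filter_congr
    intro k _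
    have : ∀ i, rel (Q i) (g i) k =
        ∑ j ∈ range (0 + 1), (Q i).coeff j * g i (k + j) :=
      fun i => rel_apply _ _ _ (hdeg i) k
    simp only [this]
  | succ m ih =>
    intro Q hQ hdeg e
    by_cases hz : ∃ i, (Q i).eval (b : ℤ) ≠ 0
    · have hev : (fun i => ∑ j ∈ range (m + 1 + 1), (Q i).coeff j * (b : ℤ) ^ j) ≠ 0 := by
        obtain ⟨i, hi⟩ := hz
        intro h
        apply hi
        have h1 := congrFun h i
        rw [eval_eq_sum_range' (Nat.lt_succ_of_le (hdeg i))]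
        exact h1
      obtain ⟨c, hc, N0, h⟩ := tuple_relations hG α halg b hb g W G M0 hE (m + 1)
        (fun i j => (Q i).coeff j) e (hind _ hev)
      refine ⟨c, hc, N0, fun N hN => (h N hN).trans (le_of_eq ?_)⟩
      congr 2
      apply Finset.filter_congr
      intro k _
      have : ∀ i, rel (Q i) (g i) k =
          ∑ j ∈ range (m + 1 + 1), (Q i).coeff j * g i (k + j) :=
        fun i => rel_apply _ _ _ (hdeg i) k
      simp only [this]
    · push Not at hz
      have hdiv : ∀ i, ∃ P : ℤ[X], Q i = (X - C (b : ℤ)) * P :=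
        fun i => dvd_iff_isRoot.2 (hz i)
      choose P hP using hdiv
      have hPdeg : ∀ i, (P i).natDegree ≤ m := by
        intro i
        by_cases h0 : P i = 0
        · rw [h0, natDegree_zero]; omega
        · have h1 := hdeg i
          rw [hP i, natDegree_mul (X_sub_C_ne_zero _) h0, natDegree_X_sub_C] at h1
          omega
      have hP0 : ∃ i, P i ≠ 0 := by
        obtain ⟨i, hi⟩ := hQ
        refine ⟨i, fun h => hi ?_⟩
        rw [hP i, h, mul_zero]
      have hb1 : ((b : ℤ) - 1) ≠ 0 := by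
        have : (2 : ℤ) ≤ b := by exact_mod_cast hb
        omega
      obtain ⟨c, hc, N0, h⟩ := ih (fun i => C ((b : ℤ) - 1) * P i) (by
        obtain ⟨i, hi⟩ := hP0
        exact ⟨i, mul_ne_zero (C_ne_zero.2 hb1) hi⟩) (by
        intro i
        exact (natDegree_C_mul_le _ _).trans (hPdeg i)) (-e)
      set w : ℕ → ℤ := fun k => ∑ i, rel (P i) (g i) k with hw
      have hbound : ∃ W : ℤ, ∀ k, |w k| ≤ W := by
        refine ⟨∑ i, ∑ j ∈ range (m + 1), |(P i).coeff j| * G, fun k => ?_⟩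
        refine (Finset.abs_sum_le_sum_abs _ _).trans ?_
        apply Finset.sum_le_sum
        intro i _
        rw [rel_apply _ _ _ (hPdeg i)]
        refine (Finset.abs_sum_le_sum_abs _ _).trans ?_
        apply Finset.sum_le_sum
        intro j _
        rw [abs_mul]
        exact mul_le_mul_of_nonneg_left (hE.bd i _) (abs_nonneg _)
      obtain ⟨W, hW⟩ := hbound
      obtain ⟨J, hJ⟩ := div_step b hb w W hW e
      obtain ⟨c', hc', N1, hN1⟩ := absorbJ J c hc
      refine ⟨c', hc', max N0 N1, fun N hN => ?_⟩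
      refine hN1 N (le_trans (le_max_right _ _) hN) _ (Nat.cast_nonneg _)
        ((h N (le_trans (le_max_left _ _) hN)).trans ?_)
      have h1 := hJ N
      have e1 : (Icc 1 N).filter (fun k : ℕ =>
          ∑ i, rel (C ((b : ℤ) - 1) * P i) (g i) k ≠ -e) =
          (Icc 1 N).filter (fun k : ℕ => ((b : ℤ) - 1) * w k ≠ -e) := by
        apply Finset.filter_congr
        intro k _
        have : ∑ i, rel (C ((b : ℤ) - 1) * P i) (g i) k = ((b : ℤ) - 1) * w k := by
          rw [hw, Finset.mul_sum]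
          apply Finset.sum_congr rfl
          intro i _
          rw [rel_C_mul]
        rw [this]
      have e2 : (Icc 1 N).filter (fun k : ℕ => ∑ i, rel (Q i) (g i) k ≠ e) =
          (Icc 1 N).filter (fun k : ℕ => w (k + 1) - b * w k ≠ e) := by
        apply Finset.filter_congr
        intro k _
        have : ∑ i, rel (Q i) (g i) k = w (k + 1) - b * w k := by
          rw [hw]
          simp only
          rw [Finset.mul_sum, ← Finset.sum_sub_distrib]
          apply Finset.sum_congr rfl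
          intro i _
          rw [hP i, rel_mul, rel_X_sub]
        rw [this]
      rw [e1, e2]
      exact_mod_cast h1

/-- the remainders of a bounded expansion -/
theorem exps_of_sum {n : ℕ} (b : ℕ) (hb : 2 ≤ b) (α : Fin n → ℝ) (g : Fin n → ℕ → ℤ) (G : ℤ)
    (hg : ∀ i k, |g i k| ≤ G)
    (hsum : ∀ i, HasSum (fun k : ℕ => (g i k : ℝ) / (b : ℝ) ^ k) (α i)) :
    Exps b α g (fun i n => ∑ k ∈ range (n + 1), g i k * (b : ℤ) ^ (n - k)) G G := by
  have hb2 : (2 : ℝ) ≤ b := by exact_mod_cast hb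
  have hb0 : (0 : ℝ) < b := by linarith
  refine ⟨?_, hg, ?_⟩
  · intro i n
    rw [Finset.sum_range_succ, Finset.mul_sum]
    congr 1
    · apply Finset.sum_congr rfl
      intro k hk
      have : k ≤ n := Nat.lt_succ_iff.1 (Finset.mem_range.1 hk)
      rw [show n + 1 - k = (n - k) + 1 by omega, pow_succ]; ring
    · simp
  · intro i n
    have h1 := (hasSum_nat_add_iff' (n + 1)).2 (hsum i)
    have h2 := h1.mul_left ((b : ℝ) ^ n)
    have h3 : (b : ℝ) ^ n * (α i - ∑ k ∈ range (n + 1), (g i k : ℝ) / (b : ℝ) ^ k) =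
        (b : ℝ) ^ n * α i - ((∑ k ∈ range (n + 1), g i k * (b : ℤ) ^ (n - k) : ℤ) : ℝ) := by
      rw [mul_sub]
      congr 1
      push_cast
      rw [Finset.mul_sum]
      apply Finset.sum_congr rfl
      intro k hk
      have hk' : k ≤ n := Nat.lt_succ_iff.1 (Finset.mem_range.1 hk)
      have e : (b : ℝ) ^ n = (b : ℝ) ^ (n - k) * (b : ℝ) ^ k := by rw [← pow_add]; congr 1; omega
      rw [e]
      have : (b : ℝ) ^ k ≠ 0 := by positivity
      field_simp
    rw [h3] at h2
    have h4 := HasSum.norm_le_of_bounded h2 (hasSum_geometric_two' (G : ℝ)) (by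
      intro k
      have hgk : |(g i (k + (n + 1)) : ℝ)| ≤ G := by exact_mod_cast hg i (k + (n + 1))
      have hM0 : (0 : ℝ) ≤ G := (abs_nonneg _).trans hgk
      have e : (b : ℝ) ^ n * ((g i (k + (n + 1)) : ℝ) / (b : ℝ) ^ (k + (n + 1))) =
          (g i (k + (n + 1)) : ℝ) / (b : ℝ) ^ (k + 1) := by
        rw [show k + (n + 1) = n + (k + 1) by ring, pow_add]
        field_simp
      rw [e, Real.norm_eq_abs, abs_div, abs_of_pos (show (0 : ℝ) < (b : ℝ) ^ (k + 1) by positivity),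
        div_div]
      apply div_le_div₀ hM0 hgk (by positivity)
      rw [← pow_succ']
      exact pow_le_pow_left₀ (by norm_num) hb2 _)
    rw [Real.norm_eq_abs, abs_sub_comm] at h4
    exact h4

/-- every nontrivial relation between consecutive terms of bounded integer expansions of a tuple of
real algebraic numbers `α_i` such that `1, α_1, …, α_n` are linearly independent -/
theorem relations {n : ℕ} (α : Fin n → ℝ) (halg : ∀ i, IsAlgebraic ℚ (α i))
    (hind : ∀ z : Fin n → ℤ, z ≠ 0 → Irrational (∑ i, (z i : ℝ) * α i))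
    (b : ℕ) (hb : 2 ≤ b) (g : Fin n → ℕ → ℤ) (G : ℤ) (hg : ∀ i k, |g i k| ≤ G)
    (hsum : ∀ i, HasSum (fun k : ℕ => (g i k : ℝ) / (b : ℝ) ^ k) (α i))
    (m : ℕ) (q : Fin n → ℕ → ℤ) (hq : ∃ i, ∃ j, j ≤ m ∧ q i j ≠ 0)
    (e : ℤ) :
    ∃ c : ℝ, 0 < c ∧ ∃ N0 : ℕ, ∀ N : ℕ, N0 ≤ N →
      c * (Real.log N) ^ 3 / (Real.log (Real.log N)) ^ 5 ≤
        (((Icc 1 N).filter (fun k : ℕ =>
          ∑ i, ∑ j ∈ range (m + 1), q i j * g i (k + j) ≠ e)).card : ℝ) := by
  set Q : Fin n → ℤ[X] := fun i => ∑ j ∈ range (m + 1), C (q i j) * X ^ j with hQ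
  have hcoeff : ∀ i, ∀ j, (Q i).coeff j = if j ∈ range (m + 1) then q i j else 0 := by
    intro i j
    simp only [hQ, finsetSum_coeff, coeff_C_mul, coeff_X_pow]
    rw [← Finset.sum_filter_add_sum_filter_not (range (m + 1)) (fun l => l = j)]
    have h2 : ∑ l ∈ (range (m + 1)).filter (fun l => ¬ l = j),
        q i l * (if j = l then 1 else 0) = 0 := by
      apply Finset.sum_eq_zero
      intro l hl
      have := (Finset.mem_filter.1 hl).2
      rw [if_neg (fun h => this h.symm), mul_zero]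
    rw [h2, add_zero]
    by_cases hj : j ∈ range (m + 1)
    · rw [if_pos hj, Finset.filter_eq' , if_pos hj]
      simp
    · rw [if_neg hj, Finset.filter_eq', if_neg hj]
      simp
  have hdeg : ∀ i, (Q i).natDegree ≤ m := by
    intro i
    apply natDegree_le_iff_coeff_eq_zero.2
    intro j hj
    rw [hcoeff, if_neg]
    rw [Finset.mem_range]; omega
  obtain ⟨c, hc, N0, h⟩ := tuple_all mg5 α halg hind b hb g _ G _
    (exps_of_sum b hb α g G hg hsum) m Q (by
    obtain ⟨i, j, hj, hij⟩ := hq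
    refine ⟨i, fun h0 => hij ?_⟩
    have h1 := hcoeff i j
    rw [h0, coeff_zero, if_pos (Finset.mem_range.2 (by omega))] at h1
    exact h1.symm) hdeg e
  refine ⟨c, hc, N0, fun N hN => (h N hN).trans (le_of_eq ?_)⟩
  congr 2
  apply Finset.filter_congr
  intro k _
  have : ∀ i, rel (Q i) (g i) k =
      ∑ j ∈ range (m + 1), q i j * g i (k + j) := by
    intro i
    rw [rel_apply _ _ _ (hdeg i) k]
    apply Finset.sum_congr rfl
    intro j hj
    rw [hcoeff, if_pos hj]
  simp only [this]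

/-- one number -/
theorem relations_one (x : ℝ) (halg : IsAlgebraic ℚ x) (hirr : Irrational x) (b : ℕ) (hb : 2 ≤ b)
    (g : ℕ → ℤ) (G : ℤ) (hg : ∀ k, |g k| ≤ G)
    (hsum : HasSum (fun k : ℕ => (g k : ℝ) / (b : ℝ) ^ k) x)
    (m : ℕ) (q : ℕ → ℤ) (hq : ∃ j, j ≤ m ∧ q j ≠ 0) (e : ℤ) :
    ∃ c : ℝ, 0 < c ∧ ∃ N0 : ℕ, ∀ N : ℕ, N0 ≤ N →
      c * (Real.log N) ^ 3 / (Real.log (Real.log N)) ^ 5 ≤
        (((Icc 1 N).filter (fun k : ℕ =>
          ∑ j ∈ range (m + 1), q j * g (k + j) ≠ e)).card : ℝ) := by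
  obtain ⟨c, hc, N0, h⟩ := relations (n := 1) (fun _ => x) (fun _ => halg) (by
    intro z hz
    have h0 : z 0 ≠ 0 := by
      intro h
      apply hz
      funext i
      have : i = 0 := Subsingleton.elim _ _
      rw [this, h]; rfl
    simp only [Finset.univ_unique, Fin.default_eq_zero, Finset.sum_singleton]
    exact hirr.intCast_mul h0) b hb (fun _ => g) G (fun _ => hg) (fun _ => hsum) m (fun _ => q)
    ⟨0, hq⟩ e
  refine ⟨c, hc, N0, fun N hN => ?_⟩
  have := h N hN
  simpa using this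

end Pool.Agent.TH842.A3.Uni
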