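import Pool.Agent.H52.V.S8.TH698.A3Asym
import Pool.Agent.H52.V.S8.TH842.A3.Defs5

/-!
# Asymptotic assembly for the exponent 3 theorem, without the logarithmic loss

This is an edited copy of helper698's `Pool.Agent.TH698.A3.asym` (job A3-ASYM) for the sharper single
prime statement `SP5`.
-/

set_option autoImplicit false

namespace Pool.Agent.TH842.A3

open Finset Polynomial Filter Topology
open Pool.Agent.H393R2.DC (S Pol V Dn digit)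
open Pool.Agent.H323R2.Gen (badG NR vv badG_card)
open Pool.Agent.TH698.A3

/-- the finite form -/
theorem finite5 {f : ℤ[X]} {d b : ℕ} {U : ℕ → ℤ} {c g F : ℕ} (hSP : SP5 f d b U c g F)
    (hW : WalkPow F) (N K Q P e Z ℓ : ℕ) (QQ : Finset ℕ)
    (hQQ : ∀ q ∈ QQ, q.Prime ∧ q ≤ Q ∧ c ≤ q ∧ (b : ZMod q) ≠ 0 ∧
      ∀ a : ZMod q, (f.map (Int.castRingHom (ZMod q))).eval a ≠ 0)
    (hbad : ∀ q ∈ QQ, (badG f d b (Pol b U N) q N).card ≤ e)
    (hbad2 : ((range (N + 1)).filter (fun R => S b (f.comp (Pol b U N)) R ≠ 0)).card ≤ e)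
    (hP : ∀ q ∈ QQ, c * ((Dn b U N).card + 1) ^ g ≤ (q ^ F) ^ P)
    (hsz : c * (e + 1) ^ g * ((Dn b U N).card + 1) ^ g * (Q ^ F) ^ (g * K + g * P) *
      ((Q ^ F) ^ K * Z + 1) ≤ N)
    (hZ : 2 * ℓ * (Q ^ F) ^ (2 * ℓ) * (e * (Q ^ F) ^ (g * K + g * P + g) + 1) < Z)
    (hl : (Dn b U N).card < 3 ^ ℓ) :
    QQ.card * (K - c * P) * K ≤ c * P * P * (5 * ℓ * (Dn b U N).card) := by
  classical
  have hex : ∀ q : ℕ, ∃ (A : Finset ℕ) (δ : ℕ → ℕ → ℕ), q ∈ QQ → ((∀ u ∈ A, (Q ^ F) ^ K * Z ≤ u) ∧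
    (∀ u ∈ A, ∀ k ≤ K, δ u k ∈ Dn b U N ∧ u < (q ^ F) ^ k * δ u k ∧
      (q ^ F) ^ k * δ u k ≤ u + (e * (Q ^ F) ^ (g * K + g * P + g) + 1)) ∧
    (∀ u ∈ A, ∀ u' ∈ A, ∀ k ≤ K, ∀ k' ≤ K, δ u k = δ u' k' → u = u' ∧ k = k') ∧
    K ≤ c * P * (P * A.card + 1)) := by
    intro q
    by_cases hq : q ∈ QQ
    · obtain ⟨hqp, hqQ, hqc, hqb, hqf⟩ := hQQ q hq
      have : Fact q.Prime := ⟨hqp⟩
      have hqF : q ^ F ≤ Q ^ F := Nat.pow_le_pow_left hqQ F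
      obtain ⟨A, δ, h1, h2, h3, h4⟩ := hSP q N K P e ((Q ^ F) ^ K * Z) ((Dn b U N).card + 1)
        hqc hqb hqf (hbad q hq) hbad2 le_rfl (hP q hq) (by
          refine le_trans ?_ hsz
          gcongr)
      refine ⟨A, δ, fun _ => ⟨h1, ?_, h3, h4⟩⟩
      intro u hu k hk
      obtain ⟨g1, g2, g3⟩ := h2 u hu k hk
      refine ⟨g1, g2, g3.trans ?_⟩
      have : e * (q ^ F) ^ (g * K + g * P + g) ≤ e * (Q ^ F) ^ (g * K + g * P + g) := by gcongr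
      omega
    · exact ⟨∅, fun _ _ => 0, fun h => absurd h hq⟩
  choose A δ hA using hex
  have hw := hW QQ (Q ^ F) K (e * (Q ^ F) ^ (g * K + g * P + g) + 1) Z ℓ
    (fun q hq => (hQQ q hq).1) (fun q hq => Nat.pow_le_pow_left (hQQ q hq).2.1 F) (Dn b U N) A δ
    (fun q hq u hu k hk => (hA q hq).2.1 u hu k hk)
    (fun q hq u hu u' hu' k hk k' hk' h => (hA q hq).2.2.1 u hu u' hu' k hk k' hk' h)
    (fun q hq u hu => (hA q hq).1 u hu) hZ hl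
  calc QQ.card * (K - c * P) * K = ∑ q ∈ QQ, (K - c * P) * K := by
        rw [Finset.sum_const, smul_eq_mul]; ring
    _ ≤ ∑ q ∈ QQ, (c * P * (P * (A q).card)) * K := by
        refine Finset.sum_le_sum (fun q hq => Nat.mul_le_mul_right _ ?_)
        have h1 := (hA q hq).2.2.2
        have h2 : c * P * (P * (A q).card + 1) = c * P * (P * (A q).card) + c * P := by ring
        omega
    _ = c * P * P * ∑ q ∈ QQ, (A q).card * K := by
        rw [Finset.mul_sum]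
        exact Finset.sum_congr rfl (fun q _ => by ring)
    _ ≤ _ := Nat.mul_le_mul_left _ hw

lemma L75 {l m lam c P : ℝ} (hm : 0 ≤ m) (hc : 0 ≤ c) (hP : 0 ≤ P) (hl0 : 0 ≤ l)
    (hl : l ≤ 4 * lam) :
    c * P * P * (5 * l * m) ≤ (c + 1) * P * P * (5 * (4 * lam) * m) := by
  have hlam : 0 ≤ 4 * lam := hl0.trans hl
  gcongr
  linarith

/-- the final computation -/
lemma final5 {c1 c0 x lam c P m c3 n Q L : ℝ} (hc1 : 0 < c1) (hc0 : 0 < c0) (hx : 0 < x)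
    (hlam : 0 < lam) (hc : 0 ≤ c) (hP : 0 < P) (hm : 0 ≤ m) (hL0 : 0 ≤ L)
    (hc3 : c3 = c1 / 2 / (2 * c0) / (4 * c0) / (2 * c0) / ((c + 1) * P * P * (5 * 4)))
    (hn : c1 / 2 * (x / (2 * c0 * lam)) / lam ≤ n) (hQ : x / (2 * c0 * lam) ≤ Q)
    (hL : L ≤ 4 * lam) (hfin : n * (Q / 2) * Q ≤ c * P * P * (5 * L * m)) :
    c3 * x ^ 3 / lam ^ 5 ≤ m := by
  have hfinal : c1 / 2 * (x / (2 * c0 * lam)) / lam * ((x / (2 * c0 * lam)) / 2) *
      (x / (2 * c0 * lam)) ≤ (c + 1) * P * P * (5 * (4 * lam) * m) :=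
    (L6 hn (by positivity) hQ (by positivity)).trans (hfin.trans (L75 hm hc hP.le hL0 hL))
  rw [div_le_iff₀ (by positivity), hc3]
  have h1 : c1 / 2 * (x / (2 * c0 * lam)) / lam * ((x / (2 * c0 * lam)) / 2) *
      (x / (2 * c0 * lam))
      = (c1 / 2 / (2 * c0) / (4 * c0) / (2 * c0)) * x ^ 3 / lam ^ 4 := by
    field_simp
    ring
  rw [h1, div_le_iff₀ (by positivity)] at hfinal
  calc c1 / 2 / (2 * c0) / (4 * c0) / (2 * c0) / ((c + 1) * P * P * (5 * 4)) * x ^ 3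
      = ((c1 / 2 / (2 * c0) / (4 * c0) / (2 * c0)) * x ^ 3) /
          ((c + 1) * P * P * (5 * 4)) := by ring
    _ ≤ ((c + 1) * P * P * (5 * (4 * lam) * m) * lam ^ 4) /
          ((c + 1) * P * P * (5 * 4)) := by
        apply div_le_div_of_nonneg_right hfinal (by positivity)
    _ = m * lam ^ 5 := by
        field_simp

theorem asym5 (f : ℤ[X]) (hf : f.Monic) (d : ℕ) (hd : f.natDegree = d) (hd2 : 2 ≤ d)
    (b : ℕ) (hb : 2 ≤ b) (t C0 : ℝ) (ht : (f.map (Int.castRingHom ℝ)).eval t = 0)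
    (U : ℕ → ℤ) (hU : ∀ K, |(U K : ℝ) - (b : ℝ) ^ K * t| ≤ C0)
    (hsup : ∃ c : ℝ, 0 < c ∧ ∃ Q0 : ℕ, ∀ Q : ℕ, Q0 ≤ Q →
      c * Q / Real.log Q ≤ ((NR f b Q).card : ℝ))
    (c g F : ℕ) (hF : 1 ≤ F) (hSP : SP5 f d b U c g F) (hW : WalkPow F) : Growth5 b U := by
  classical
  obtain ⟨C, hC1, hC⟩ := badG_card f hf d hd (by omega) b hb t C0 ht U hU
  obtain ⟨c1, hc1, Q0, hQ0⟩ := hsup
  have hC0 : 0 ≤ C0 := (abs_nonneg _).trans (hU 0)
  obtain ⟨C2, hC2⟩ : ∃ C2 : ℝ, C2 = 1 + |(U 0 : ℝ)| + (1 + b) * C0 := ⟨_, rfl⟩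
  obtain ⟨Q1, hQ1⟩ := sqrt_few hc1
  obtain ⟨P, hP⟩ : ∃ P : ℕ, P = 16 * g + 1 := ⟨_, rfl⟩
  obtain ⟨κn, hκn⟩ : ∃ κn : ℕ, κn = 2 * g + 13 := ⟨_, rfl⟩
  obtain ⟨κ, hκ⟩ : ∃ κ : ℝ, κ = (κn : ℝ) := ⟨_, rfl⟩
  have hκ13 : 13 ≤ κ := by
    rw [hκ]
    exact_mod_cast (by omega : 13 ≤ κn)
  have hκ0 : 0 < κ := by linarith
  obtain ⟨c0, hc0⟩ : ∃ c0 : ℝ, c0 = 4 * d * κ * F * (g + 1) := ⟨_, rfl⟩
  have hdR : (2 : ℝ) ≤ d := by exact_mod_cast hd2
  have hFR : (1 : ℝ) ≤ F := by exact_mod_cast hF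
  have hgR : (0 : ℝ) ≤ g := Nat.cast_nonneg _
  have hc02 : 2 ≤ c0 := by rw [hc0]; exact c0_ge hdR hκ13 hFR hgR
  have hc00 : 0 < c0 := by linarith
  obtain ⟨M, hM⟩ : ∃ M : ℕ, M = F * (g * P + g) + 4 * g + 24 := ⟨_, rfl⟩
  obtain ⟨B, hB⟩ : ∃ B : ℕ, B = Q0 + Q1 + c * c + 2 * (c * P) + 10 := ⟨_, rfl⟩
  obtain ⟨X, hX⟩ := ev_cond κ (2 * c0) (8 * F) (C * C2) (B + c) hκ0 (by positivity) M
  obtain ⟨N1, hN1⟩ := eventually_atTop.1
    ((Real.tendsto_log_atTop.comp (tendsto_natCast_atTop_atTop (R := ℝ))).eventually_ge_atTop X)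
  have hP0 : (0 : ℝ) < P := by
    have : 0 < P := by omega
    exact_mod_cast this
  obtain ⟨c3, hc3⟩ : ∃ c3 : ℝ, c3 = c1 / 2 / (2 * c0) / (4 * c0) / (2 * c0) /
    ((c + 1) * P * P * (5 * 4)) := ⟨_, rfl⟩
  have hc30 : 0 < c3 := by rw [hc3]; positivity
  refine ⟨min 1 c3, lt_min one_pos hc30, max N1 1, fun N hN => ?_⟩
  have hNX : X ≤ Real.log N := hN1 N (le_trans (le_max_left _ _) hN)
  have hNpos : 1 ≤ N := le_trans (le_max_right _ _) hN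
  obtain ⟨x, hx⟩ : ∃ x : ℝ, x = Real.log N := ⟨_, rfl⟩
  rw [← hx] at hNX ⊢
  obtain ⟨e1, e2, e3, e4, e5, e6, e7, e8, e9⟩ := hX _ hNX
  obtain ⟨lam, hlam⟩ : ∃ lam : ℝ, lam = Real.log x := ⟨_, rfl⟩
  rw [← hlam] at e3 e4 e7 e8 e9 ⊢
  obtain ⟨y, hy⟩ : ∃ y : ℝ, y = Real.exp (x / κ) := ⟨_, rfl⟩
  rw [← hy] at e1 e5
  obtain ⟨m, hm⟩ : ∃ m : ℕ, m = (Dn b U N).card := ⟨_, rfl⟩
  rw [← hm]
  have hx1 : 1 ≤ x := by linarith
  have hx0 : 0 < x := by linarith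
  have hlam0 : 0 < lam := by linarith
  have hm0 : (0 : ℝ) ≤ m := Nat.cast_nonneg _
  have hlam5 : 1 ≤ lam ^ 5 := one_le_pow₀ e3
  by_cases hcase : x ^ 3 ≤ (m : ℝ)
  · rw [div_le_iff₀ (by positivity)]
    calc min 1 c3 * x ^ 3 ≤ 1 * x ^ 3 :=
          mul_le_mul_of_nonneg_right (min_le_left _ _) (by positivity)
      _ ≤ (m : ℝ) := by linarith
      _ ≤ (m : ℝ) * lam ^ 5 := le_mul_of_one_le_right hm0 hlam5
  push Not at hcase
  have hNy : (N : ℝ) = y ^ κn := by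
    rw [hy, ← Real.exp_nat_mul]
    have : (κn : ℝ) * (x / κ) = x := by
      rw [← hκ]
      field_simp
    rw [this, hx, Real.exp_log (by exact_mod_cast hNpos)]
  obtain ⟨Q, ℓ, e, Z, q1, q2, q3, q4, q5, q6, q7, q8, q9, q10, q11⟩ :=
    params d c g F P M B κn N m κ c0 x lam y hd2 hF hP hκn hκ hc0 hM (by omega)
      (by rw [hlam]; exact Real.exp_log hx0) hy hNy e1 e3 e4 e5 e6 e7 e8 e9 hcase
  -- bound for the exceptional sets
  have hbase : C * (1 + (V b U N : ℝ)) ≤ x ^ 4 := by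
    have h1 := Pool.Agent.H393R2.DC.V_le_Dn b t C0 U hU N
    rw [← hC2, ← hm] at h1
    have hC2' : 0 ≤ C2 := by
      rw [hC2]
      positivity
    calc C * (1 + (V b U N : ℝ)) ≤ C * (C2 * (1 + (m : ℝ))) :=
          mul_le_mul_of_nonneg_left h1 (by linarith)
      _ ≤ C * (C2 * (1 + x ^ 3)) := by
          apply mul_le_mul_of_nonneg_left _ (by linarith)
          apply mul_le_mul_of_nonneg_left _ hC2'
          linarith
      _ = C * C2 * (1 + x ^ 3) := by ring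
      _ ≤ x ^ 4 := e2
  have hVnn : 0 ≤ C * (1 + (V b U N : ℝ)) := by
    have : (0 : ℝ) ≤ (V b U N : ℝ) := by exact_mod_cast Pool.Agent.H393R2.DC.V_nonneg b U N
    have : 0 ≤ C := by linarith
    positivity
  have hx41 : 1 ≤ x ^ 4 := one_le_pow₀ hx1
  have hcardbad : ∀ q : ℕ, q ≤ Q → 1 ≤ q → (badG f d b (Pol b U N) q N).card ≤ e := by
    intro q hqQ hq1
    apply q5
    calc ((badG f d b (Pol b U N) q N).card : ℝ) ≤ (C * (1 + (V b U N : ℝ))) ^ (d * q) :=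
          (hC N q hq1).1
      _ ≤ (x ^ 4) ^ (d * q) := pow_le_pow_left₀ hVnn hbase _
      _ ≤ (x ^ 4) ^ (d * Q) := pow_le_pow_right₀ hx41 (Nat.mul_le_mul_left _ hqQ)
      _ ≤ y := q4
  have hcardbad2 : ((range (N + 1)).filter (fun R => S b (f.comp (Pol b U N)) R ≠ 0)).card ≤ e := by
    apply q5
    calc _ ≤ (C * (1 + (V b U N : ℝ))) ^ (d * 1) := (hC N 1 le_rfl).2
      _ ≤ (x ^ 4) ^ (d * 1) := pow_le_pow_left₀ hVnn hbase _
      _ ≤ (x ^ 4) ^ (d * Q) := pow_le_pow_right₀ hx41 (Nat.mul_le_mul_left _ (by omega))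
      _ ≤ y := q4
  -- the primes
  obtain ⟨QQ, hQQ⟩ : ∃ QQ : Finset ℕ, QQ = (NR f b Q).filter (fun q => Q ≤ q * q) := ⟨_, rfl⟩
  have hmemQQ : ∀ q, q ∈ QQ ↔ q ∈ NR f b Q ∧ Q ≤ q * q := by
    intro q
    rw [hQQ, Finset.mem_filter]
  have hQQcard : c1 / 2 * Q / Real.log Q ≤ (QQ.card : ℝ) := by
    have h1 := hQ0 Q (by omega)
    have h2 := hQ1 Q (by omega)
    have h3 : (NR f b Q).card ≤ QQ.card + (Nat.sqrt Q + 1) := by
      have h4 : NR f b Q ⊆ QQ ∪ range (Nat.sqrt Q + 1) := by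
        intro q hq
        rw [Finset.mem_union]
        by_cases h : Q ≤ q * q
        · exact Or.inl ((hmemQQ q).2 ⟨hq, h⟩)
        · right
          rw [Finset.mem_range, Nat.lt_succ_iff, Nat.le_sqrt]
          omega
      refine (Finset.card_le_card h4).trans ((Finset.card_union_le _ _).trans ?_)
      rw [Finset.card_range]
    have h3' : ((NR f b Q).card : ℝ) ≤ QQ.card + (Nat.sqrt Q + 1) := by exact_mod_cast h3
    have h5 : c1 * Q / Real.log Q = c1 / 2 * Q / Real.log Q + c1 / 2 * Q / Real.log Q := by ring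
    linarith
  have hQQq : ∀ q ∈ QQ, c ≤ q := by
    intro q hq
    have hqq := ((hmemQQ q).1 hq).2
    by_contra hlt
    push Not at hlt
    have : q * q ≤ c * c := Nat.mul_le_mul hlt.le hlt.le
    omega
  have hQQmem : ∀ q ∈ QQ, q.Prime ∧ q ≤ Q ∧ c ≤ q ∧ (b : ZMod q) ≠ 0 ∧
      ∀ a : ZMod q, (f.map (Int.castRingHom (ZMod q))).eval a ≠ 0 := by
    intro q hq
    have h1 := ((hmemQQ q).1 hq).1
    unfold NR at h1
    rw [Finset.mem_filter, Finset.mem_range] at h1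
    exact ⟨h1.2.1, by omega, hQQq q hq, h1.2.2.1, h1.2.2.2⟩
  have hfin := finite5 hSP hW N Q Q P e Z ℓ QQ hQQmem
    (fun q hq => hcardbad q (hQQmem q hq).2.1 (hQQmem q hq).1.one_lt.le)
    hcardbad2
    (fun q hq => by
      rw [← hm]
      exact q11 q (hQQmem q hq).1.one_lt.le ((hmemQQ q).1 hq).2 (hQQq q hq))
    (by rw [← hm]; exact q10) q9 (by rw [← hm]; exact q7)
  rw [← hm] at hfin
  -- conclusion
  have hfinR : (QQ.card : ℝ) * ((Q : ℝ) / 2) * Q ≤ c * P * P * (5 * ℓ * m) := by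
    have hcPQ : c * P ≤ Q := by omega
    have h1 : ((QQ.card * (Q - c * P) * Q : ℕ) : ℝ) ≤ ((c * P * P * (5 * ℓ * m) : ℕ) : ℝ) :=
      Nat.cast_le.2 hfin
    rw [Nat.cast_mul, Nat.cast_mul, Nat.cast_sub hcPQ] at h1
    push_cast at h1
    have h2 : 2 * ((c : ℝ) * P) ≤ Q := by exact_mod_cast (by omega : 2 * (c * P) ≤ Q)
    exact L5 (Nat.cast_nonneg _) h2 (Nat.cast_nonneg _) h1
  have hQ1r : (1 : ℝ) < Q := by exact_mod_cast (by omega : 1 < Q)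
  have hlogQ : Real.log Q ≤ lam := by rw [hlam]; exact Real.log_le_log (by linarith) q3
  have hlogQ0 : 0 < Real.log Q := Real.log_pos hQ1r
  have hr : c1 / 2 * (x / (2 * c0 * lam)) / lam ≤ (QQ.card : ℝ) := by
    refine le_trans ?_ hQQcard
    apply div_le_div₀ (by positivity) _ hlogQ0 hlogQ
    exact mul_le_mul_of_nonneg_left q2 (by positivity)
  have hfin2 : c3 * x ^ 3 / lam ^ 5 ≤ (m : ℝ) :=
    final5 hc1 hc00 hx0 hlam0 (Nat.cast_nonneg _) hP0 hm0 (Nat.cast_nonneg _) hc3 hr q2 q6 hfinR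
  refine le_trans ?_ hfin2
  apply div_le_div_of_nonneg_right _ (by positivity)
  exact mul_le_mul_of_nonneg_right (min_le_right _ _) (by positivity)

end Pool.Agent.TH842.A3
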