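import Pool.Agent.H52.V.S8.TH842.A3.Comb
import Pool.Agent.H52.V.S8.TH842.A3.Mu

/-!
Clusters, gaps, sumsets of positions.
-/

set_option autoImplicit false

namespace Pool.Agent.TH842.A3

open Finset

/-- distinct elements differ by more than `β` -/
def Sep (M : Finset ℕ) (β : ℕ) : Prop := ∀ x ∈ M, ∀ y ∈ M, x < y → x + β < y

/-- two elements differ by less than `α` or by more than `β` -/
def Dich (M : Finset ℕ) (α β : ℕ) : Prop := ∀ x ∈ M, ∀ y ∈ M, x ≤ y → y < x + α ∨ x + β < y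

lemma Sep.mono {M M' : Finset ℕ} {β : ℕ} (h : Sep M β) (hM : M' ⊆ M) : Sep M' β :=
  fun x hx y hy => h x (hM hx) y (hM hy)

/-- least element of the cluster -/
noncomputable def rep (M : Finset ℕ) (α y : ℕ) : ℕ := sInf {e | e ∈ M ∧ e ≤ y ∧ y < e + α}

lemma rep_spec {M : Finset ℕ} {α y : ℕ} (hα : 1 ≤ α) (hy : y ∈ M) :
    rep M α y ∈ M ∧ rep M α y ≤ y ∧ y < rep M α y + α := by
  have hne : {e | e ∈ M ∧ e ≤ y ∧ y < e + α}.Nonempty := ⟨y, hy, le_rfl, by omega⟩
  exact Nat.sInf_mem hne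

lemma rep_min {M : Finset ℕ} {α y e : ℕ} (he : e ∈ M) (h1 : e ≤ y) (h2 : y < e + α) :
    rep M α y ≤ e := Nat.sInf_le ⟨he, h1, h2⟩

lemma rep_eq_of_close {M : Finset ℕ} {α β : ℕ} (hα : 1 ≤ α) (hβ : 2 * α ≤ β) (hM : Dich M α β)
    {y y' : ℕ} (hy : y ∈ M) (hy' : y' ∈ M) (h1 : y ≤ y') (h2 : y' < y + α) :
    rep M α y = rep M α y' := by
  obtain ⟨a1, a2, a3⟩ := rep_spec hα hy
  obtain ⟨b1, b2, b3⟩ := rep_spec hα hy'
  apply le_antisymm
  · apply rep_min b1
    · by_contra hcon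
      push Not at hcon
      -- `y < rep y'`
      have h3 : rep M α y' ≤ y := by
        apply rep_min hy h1 h2
      omega
    · rcases hM _ b1 y hy (by
        have := rep_min (α := α) hy h1 h2
        exact this) with h | h
      · exact h
      · omega
  · apply rep_min a1 (by omega)
    rcases hM _ a1 y' hy' (by omega) with h | h
    · exact h
    · omega

lemma rep_rep {M : Finset ℕ} {α β : ℕ} (hα : 1 ≤ α) (hβ : 2 * α ≤ β) (hM : Dich M α β)
    {y : ℕ} (hy : y ∈ M) : rep M α (rep M α y) = rep M α y := by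
  obtain ⟨a1, a2, a3⟩ := rep_spec hα hy
  exact rep_eq_of_close hα hβ hM a1 hy a2 a3

lemma rep_sep {M : Finset ℕ} {α β : ℕ} (hα : 1 ≤ α) (hβ : 2 * α ≤ β) (hM : Dich M α β) :
    Sep (M.image (rep M α)) β := by
  intro x hx y hy hxy
  obtain ⟨x', hx', rfl⟩ := Finset.mem_image.1 hx
  obtain ⟨y', hy', rfl⟩ := Finset.mem_image.1 hy
  have a1 := (rep_spec hα hx').1
  have b1 := (rep_spec hα hy').1
  rcases hM _ a1 _ b1 hxy.le with h | h
  · exfalso
    have h1 := rep_eq_of_close hα hβ hM a1 b1 hxy.le h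
    rw [rep_rep hα hβ hM hx', rep_rep hα hβ hM hy'] at h1
    omega
  · exact h

lemma rep_image_sub {M : Finset ℕ} {α : ℕ} (hα : 1 ≤ α) : M.image (rep M α) ⊆ M := by
  intro x hx
  obtain ⟨x', hx', rfl⟩ := Finset.mem_image.1 hx
  exact (rep_spec hα hx').1

/-- an element preceded by a gap -/
lemma gap_elt (P : Finset ℕ) (g : ℕ) (a : ℕ) (ha : a ∈ P) :
    ∃ t ∈ P, t ≤ a ∧ a ≤ t + P.card * g ∧ ∀ p ∈ P, p < t → p + g < t := by
  classical
  have key : ∀ n : ℕ, ∀ a ∈ P, (P.filter (fun x => x ≤ a)).card ≤ n →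
      ∃ t ∈ P, t ≤ a ∧ a ≤ t + n * g ∧ ∀ p ∈ P, p < t → p + g < t := by
    intro n
    induction n with
    | zero =>
      intro a ha h
      have : a ∈ P.filter (fun x => x ≤ a) := Finset.mem_filter.2 ⟨ha, le_rfl⟩
      have h2 := Finset.card_pos.2 ⟨a, this⟩
      omega
    | succ n ih =>
      intro a ha h
      by_cases hg : ∀ p ∈ P, p < a → p + g < a
      · exact ⟨a, ha, le_rfl, by omega, hg⟩
      · push Not at hg
        obtain ⟨p, hp, hpa, hpg⟩ := hg
        have hlt : (P.filter (fun x => x ≤ p)).card < (P.filter (fun x => x ≤ a)).card := by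
          apply Finset.card_lt_card
          rw [Finset.ssubset_iff_of_subset]
          · refine ⟨a, Finset.mem_filter.2 ⟨ha, le_rfl⟩, fun h' => ?_⟩
            have := (Finset.mem_filter.1 h').2
            omega
          · intro x hx
            rw [Finset.mem_filter] at *
            exact ⟨hx.1, by omega⟩
        obtain ⟨t, ht, h1, h2, h3⟩ := ih p hp (by omega)
        refine ⟨t, ht, by omega, ?_, h3⟩
        have : (n + 1) * g = n * g + g := by ring
        omega
  exact key P.card a ha (Finset.card_filter_le _ _)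

/-- positions reachable with at most `j` elements of `E` -/
def SS (M E : Finset ℕ) : ℕ → Finset ℕ
  | 0 => M
  | j + 1 => SS M E j ∪ (SS M E j ×ˢ E).image (fun x => x.1 + x.2)

lemma SS_succ_sub (M E : Finset ℕ) (j : ℕ) : SS M E j ⊆ SS M E (j + 1) := by
  simp only [SS]
  exact Finset.subset_union_left

lemma SS_mono (M E : Finset ℕ) {j j' : ℕ} (h : j ≤ j') : SS M E j ⊆ SS M E j' := by
  induction j', h using Nat.le_induction with
  | base => exact Finset.Subset.refl _
  | succ j' _ ih => exact ih.trans (SS_succ_sub M E j')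

lemma SS_card (M E : Finset ℕ) (j : ℕ) : (SS M E j).card ≤ M.card * (1 + E.card) ^ j := by
  induction j with
  | zero => simp [SS]
  | succ j ih =>
    simp only [SS]
    refine (Finset.card_union_le _ _).trans ?_
    have h1 : ((SS M E j ×ˢ E).image (fun x => x.1 + x.2)).card ≤ (SS M E j).card * E.card := by
      refine Finset.card_image_le.trans ?_
      rw [Finset.card_product]
    calc (SS M E j).card + ((SS M E j ×ˢ E).image (fun x => x.1 + x.2)).card
        ≤ (SS M E j).card + (SS M E j).card * E.card := Nat.add_le_add_left h1 _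
      _ = (SS M E j).card * (1 + E.card) := by ring
      _ ≤ (M.card * (1 + E.card) ^ j) * (1 + E.card) := Nat.mul_le_mul_right _ ih
      _ = M.card * (1 + E.card) ^ (j + 1) := by ring

lemma SS_add {M E : Finset ℕ} {j x y : ℕ} (hx : x ∈ SS M E j) (hy : y ∈ E) :
    x + y ∈ SS M E (j + 1) := by
  simp only [SS]
  apply Finset.mem_union_right
  exact Finset.mem_image.2 ⟨(x, y), Finset.mem_product.2 ⟨hx, hy⟩, rfl⟩

lemma SS_comb {M E 𝓔 : Finset ℕ} {h : ℕ} (hM : ∀ y ∈ M, Comb 𝓔 h (y : ℤ)) (hE : E ⊆ 𝓔) (j : ℕ) :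
    ∀ y ∈ SS M E j, Comb 𝓔 (h + j) (y : ℤ) := by
  induction j with
  | zero => exact hM
  | succ j ih =>
    intro y hy
    simp only [SS] at hy
    rcases Finset.mem_union.1 hy with h1 | h1
    · exact (ih y h1).mono (Finset.Subset.refl _) (by omega)
    · obtain ⟨⟨a, b⟩, hab, rfl⟩ := Finset.mem_image.1 h1
      rw [Finset.mem_product] at hab
      have h2 := (ih a hab.1).add (Comb.single (hE hab.2))
      have h3 : ((a + b : ℕ) : ℤ) = (a : ℤ) + b := by push_cast; ring
      simp only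
      rw [h3]
      exact h2

section
variable {k : Type} [CommRing k]

lemma supp_mul {A B : PowerSeries k} {M E : Finset ℕ} {j : ℕ}
    (hA : ∀ y, PowerSeries.coeff y A ≠ 0 → y ∈ SS M E j)
    (hB : ∀ y, PowerSeries.coeff y B ≠ 0 → y ∈ E) :
    ∀ y, PowerSeries.coeff y (A * B) ≠ 0 → y ∈ SS M E (j + 1) := by
  intro y hy
  rw [PowerSeries.coeff_mul] at hy
  obtain ⟨x, hx, hx2⟩ := Finset.exists_ne_zero_of_sum_ne_zero hy
  rw [Finset.HasAntidiagonal.mem_antidiagonal] at hx
  rw [← hx]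
  exact SS_add (hA _ (left_ne_zero_of_mul hx2)) (hB _ (right_ne_zero_of_mul hx2))

lemma supp_mul_pow {A B : PowerSeries k} {M E : Finset ℕ}
    (hA : ∀ y, PowerSeries.coeff y A ≠ 0 → y ∈ M)
    (hB : ∀ y, PowerSeries.coeff y B ≠ 0 → y ∈ E) (j : ℕ) :
    ∀ y, PowerSeries.coeff y (A * B ^ j) ≠ 0 → y ∈ SS M E j := by
  induction j with
  | zero => intro y hy; rw [pow_zero, mul_one] at hy; exact hA y hy
  | succ j ih =>
    intro y hy
    rw [pow_succ, ← mul_assoc] at hy
    exact supp_mul ih hB y hy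

lemma supp_sum {ι : Type} {s : Finset ι} {F : ι → PowerSeries k} {M : Finset ℕ}
    (h : ∀ i ∈ s, ∀ y, PowerSeries.coeff y (F i) ≠ 0 → y ∈ M) :
    ∀ y, PowerSeries.coeff y (∑ i ∈ s, F i) ≠ 0 → y ∈ M := by
  intro y hy
  rw [map_sum] at hy
  obtain ⟨i, hi, hi2⟩ := Finset.exists_ne_zero_of_sum_ne_zero hy
  exact h i hi y hi2

lemma supp_natCast_mul {A : PowerSeries k} {M : Finset ℕ} (c : ℕ)
    (h : ∀ y, PowerSeries.coeff y A ≠ 0 → y ∈ M) :
    ∀ y, PowerSeries.coeff y ((c : PowerSeries k) * A) ≠ 0 → y ∈ M := by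
  intro y hy
  apply h y
  intro h0
  apply hy
  have : (c : PowerSeries k) = PowerSeries.C (c : k) := by simp
  rw [this, PowerSeries.coeff_C_mul, h0, mul_zero]

end

end Pool.Agent.TH842.A3
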