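import Pool.Agent.H52.V.S8.H393R2.DE.Lac

/-!
Integer combinations of a finite set with bounded coefficients; few scales are hit
(pigeonhole lacunarity); selection of free levels.
-/

set_option autoImplicit false

namespace Pool.Agent.TH842.A3

open Finset

/-- `x` is a combination of elements of `E` with coefficients of total size at most `h` -/
def Comb (E : Finset ℕ) (h : ℕ) (x : ℤ) : Prop :=
  ∃ v : ℕ → ℤ, (∑ e ∈ E, |v e| ≤ h) ∧ x = ∑ e ∈ E, v e * e

lemma Comb.zero (E : Finset ℕ) (h : ℕ) : Comb E h 0 :=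
  ⟨fun _ => 0, by simp, by simp⟩

lemma Comb.mono {E E' : Finset ℕ} {h h' : ℕ} {x : ℤ} (hx : Comb E h x) (hE : E ⊆ E')
    (hh : h ≤ h') : Comb E' h' x := by
  classical
  obtain ⟨v, hv, rfl⟩ := hx
  refine ⟨fun e => if e ∈ E then v e else 0, ?_, ?_⟩
  · have h1 : ∑ e ∈ E', |(if e ∈ E then v e else 0)| = ∑ e ∈ E, |v e| := by
      rw [← Finset.sum_subset hE]
      · exact Finset.sum_congr rfl (fun e he => by rw [if_pos he])
      · intro e _ he
        rw [if_neg he, abs_zero]
    rw [h1]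
    have : (h : ℤ) ≤ h' := by exact_mod_cast hh
    linarith
  · rw [← Finset.sum_subset hE]
    · exact Finset.sum_congr rfl (fun e he => by simp only [if_pos he])
    · intro e _ he
      simp only [if_neg he, zero_mul]

lemma Comb.add {E : Finset ℕ} {h h' : ℕ} {x y : ℤ} (hx : Comb E h x) (hy : Comb E h' y) :
    Comb E (h + h') (x + y) := by
  obtain ⟨v, hv, rfl⟩ := hx
  obtain ⟨w, hw, rfl⟩ := hy
  refine ⟨fun e => v e + w e, ?_, ?_⟩
  · calc ∑ e ∈ E, |v e + w e| ≤ ∑ e ∈ E, (|v e| + |w e|) :=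
          Finset.sum_le_sum (fun e _ => abs_add_le _ _)
      _ = ∑ e ∈ E, |v e| + ∑ e ∈ E, |w e| := Finset.sum_add_distrib
      _ ≤ ((h + h' : ℕ) : ℤ) := by push_cast; linarith
  · rw [← Finset.sum_add_distrib]
    exact Finset.sum_congr rfl (fun e _ => by ring)

lemma Comb.neg {E : Finset ℕ} {h : ℕ} {x : ℤ} (hx : Comb E h x) : Comb E h (-x) := by
  obtain ⟨v, hv, rfl⟩ := hx
  refine ⟨fun e => -v e, ?_, ?_⟩
  · simpa using hv
  · rw [← Finset.sum_neg_distrib]
    exact Finset.sum_congr rfl (fun e _ => by ring)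

lemma Comb.sub {E : Finset ℕ} {h h' : ℕ} {x y : ℤ} (hx : Comb E h x) (hy : Comb E h' y) :
    Comb E (h + h') (x - y) := by
  rw [sub_eq_add_neg]; exact hx.add hy.neg

lemma Comb.single {E : Finset ℕ} {e : ℕ} (he : e ∈ E) : Comb E 1 (e : ℤ) := by
  classical
  refine ⟨fun x => if x = e then 1 else 0, ?_, ?_⟩
  · have h1 : ∀ x ∈ E, |(if x = e then (1 : ℤ) else 0)| = if x = e then 1 else 0 := by
      intro x _; split_ifs <;> simp
    rw [Finset.sum_congr rfl h1, Finset.sum_ite_eq' E e, if_pos he]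
    simp
  · have h1 : ∀ x ∈ E, (if x = e then (1 : ℤ) else 0) * (x : ℤ) = if x = e then (x : ℤ) else 0 := by
      intro x _; split_ifs <;> simp
    rw [Finset.sum_congr rfl h1, Finset.sum_ite_eq' E e, if_pos he]

lemma Comb.empty {h : ℕ} {x : ℤ} (hx : Comb ∅ h x) : x = 0 := by
  obtain ⟨v, _, rfl⟩ := hx
  simp

/-- a product of many numbers with small sum is small -/
lemma prod_small (E : Finset ℕ) (w : ℕ → ℕ) (c Q : ℕ) (hc : 1 ≤ c)
    (hQ : ∑ e ∈ E, (2 * w e + 1) / c ≤ Q) : ∏ e ∈ E, (2 * w e + 1) ≤ c ^ E.card * 2 ^ Q := by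
  calc ∏ e ∈ E, (2 * w e + 1) ≤ ∏ e ∈ E, (c * 2 ^ ((2 * w e + 1) / c)) := by
        apply Finset.prod_le_prod' 
        intro e _
        have h1 : 2 * w e + 1 < c * ((2 * w e + 1) / c + 1) := Nat.lt_mul_div_succ _ hc
        have h2 : (2 * w e + 1) / c + 1 ≤ 2 ^ ((2 * w e + 1) / c) := Nat.lt_two_pow_self
        exact h1.le.trans (Nat.mul_le_mul_left _ h2)
    _ = c ^ E.card * 2 ^ (∑ e ∈ E, (2 * w e + 1) / c) := by
        rw [Finset.prod_mul_distrib, Finset.prod_const, Finset.prod_pow_eq_pow_sum]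
    _ ≤ c ^ E.card * 2 ^ Q := Nat.mul_le_mul_left _ (Nat.pow_le_pow_right (by norm_num) hQ)

/-- pigeonhole lacunarity -/
theorem pigeon (E : Finset ℕ) (h l : ℕ) (S : Finset ℕ) (z Γ : ℕ → ℕ) (hz : ∀ k ∈ S, 0 < z k)
    (hlac : ∀ k ∈ S, ∀ l ∈ S, k < l → 3 * Γ l ≤ z k)
    (hx : ∀ k ∈ S, ∃ x : ℤ, Comb E h x ∧ (z k : ℤ) ≤ |x| ∧ |x| ≤ Γ k)
    (hl : 8 * (h + 1) ≤ 2 ^ l) : S.card ≤ E.card * (2 * (l + 1)) := by
  classical
  by_contra hcon
  push Not at hcon
  choose! x hx using hx
  have hx1 : ∀ k ∈ S, ∃ v : ℕ → ℤ, (∑ e ∈ E, |v e| ≤ h) ∧ x k = ∑ e ∈ E, v e * e :=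
    fun k hk => (hx k hk).1
  choose! v hv using hx1
  set w : ℕ → ℕ := fun e => ∑ k ∈ S, (v k e).natAbs with hw
  have hmaps : ∀ T ∈ S.powerset, (fun (e : ℕ) (_ : e ∈ E) => ∑ k ∈ T, v k e) ∈
      E.pi (fun e => Finset.Icc (-(w e : ℤ)) (w e)) := by
    intro T hT
    rw [Finset.mem_powerset] at hT
    rw [Finset.mem_pi]
    intro e he
    rw [Finset.mem_Icc, ← abs_le]
    calc |∑ k ∈ T, v k e| ≤ ∑ k ∈ T, |v k e| := Finset.abs_sum_le_sum_abs _ _
      _ ≤ ∑ k ∈ S, |v k e| := Finset.sum_le_sum_of_subset_of_nonneg hT (fun _ _ _ => abs_nonneg _)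
      _ = (w e : ℤ) := by
          simp only [hw]
          push_cast
          rfl
  have hwsum : ∑ e ∈ E, w e ≤ h * S.card := by
    simp only [hw]
    rw [Finset.sum_comm]
    calc ∑ k ∈ S, ∑ e ∈ E, (v k e).natAbs ≤ ∑ k ∈ S, h := by
          apply Finset.sum_le_sum
          intro k hk
          have h1 := (hv k hk).1
          have h2 : ((∑ e ∈ E, (v k e).natAbs : ℕ) : ℤ) = ∑ e ∈ E, |v k e| := by
            push_cast
            rfl
          rw [← h2] at h1
          exact_mod_cast h1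
      _ = h * S.card := by rw [Finset.sum_const, smul_eq_mul, mul_comm]
  have hcard : (E.pi (fun e => Finset.Icc (-(w e : ℤ)) (w e))).card < S.powerset.card := by
    rw [Finset.card_pi, Finset.card_powerset]
    have h1 : ∀ e ∈ E, (Finset.Icc (-(w e : ℤ)) (w e)).card = 2 * w e + 1 := by
      intro e _
      rw [Int.card_Icc]
      omega
    rw [Finset.prod_congr rfl h1]
    set c : ℕ := 2 ^ l with hc
    have hc1 : 1 ≤ c := Nat.one_le_two_pow
    set Q : ℕ := ∑ e ∈ E, (2 * w e + 1) / c with hQ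
    have hcQ : c * Q ≤ 2 * (h * S.card) + E.card := by
      rw [hQ, Finset.mul_sum]
      calc ∑ e ∈ E, c * ((2 * w e + 1) / c) ≤ ∑ e ∈ E, (2 * w e + 1) :=
            Finset.sum_le_sum (fun e _ => Nat.mul_div_le _ _)
        _ = 2 * ∑ e ∈ E, w e + E.card := by
            rw [Finset.sum_add_distrib, ← Finset.mul_sum]
            simp
        _ ≤ _ := by omega
    have h8 : 8 * Q ≤ 2 * S.card + E.card := by
      have e1 : 8 * (h + 1) * Q ≤ c * Q := Nat.mul_le_mul_right _ hl
      have e2 : (h + 1) * (8 * Q) ≤ (h + 1) * (2 * S.card + E.card) := by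
        calc (h + 1) * (8 * Q) = 8 * (h + 1) * Q := by ring
          _ ≤ 2 * (h * S.card) + E.card := e1.trans hcQ
          _ ≤ (h + 1) * (2 * S.card + E.card) := by nlinarith
      exact Nat.le_of_mul_le_mul_left e2 (Nat.succ_pos h)
    calc ∏ e ∈ E, (2 * w e + 1) ≤ c ^ E.card * 2 ^ Q := prod_small E w c Q hc1 le_rfl
      _ = 2 ^ (l * E.card + Q) := by rw [hc, ← pow_mul, ← pow_add]
      _ < 2 ^ S.card := by
          apply Nat.pow_lt_pow_right (by norm_num)
          have e3 : E.card * (2 * (l + 1)) = 2 * (l * E.card) + 2 * E.card := by ring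
          omega
  obtain ⟨T, hT, T', hT', hne, heq⟩ := Finset.exists_ne_map_eq_of_card_lt_of_maps_to hcard hmaps
  rw [Finset.mem_powerset] at hT hT'
  have hsum : ∑ k ∈ T, x k = ∑ k ∈ T', x k := by
    have hgen : ∀ T : Finset ℕ, T ⊆ S → ∑ k ∈ T, x k = ∑ e ∈ E, (∑ k ∈ T, v k e) * e := by
      intro T hT
      rw [Finset.sum_congr rfl (fun k hk => (hv k (hT hk)).2), Finset.sum_comm]
      exact Finset.sum_congr rfl (fun e _ => by rw [Finset.sum_mul])
    rw [hgen T hT, hgen T' hT']
    apply Finset.sum_congr rfl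
    intro e he
    have := congrFun (congrFun heq e) he
    rw [this]
  -- symmetric difference
  set W := (T \ T') ∪ (T' \ T) with hW
  have hWS : W ⊆ S := by
    intro k hk
    rw [hW, Finset.mem_union, Finset.mem_sdiff, Finset.mem_sdiff] at hk
    rcases hk with h | h
    · exact hT h.1
    · exact hT' h.1
  have hWne : W.Nonempty := by
    rw [Finset.nonempty_iff_ne_empty]
    intro h0
    apply hne
    rw [hW, Finset.union_eq_empty, Finset.sdiff_eq_empty_iff_subset,
      Finset.sdiff_eq_empty_iff_subset] at h0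
    exact Finset.Subset.antisymm h0.1 h0.2
  have hsd : ∑ k ∈ T \ T', x k = ∑ k ∈ T' \ T, x k := by
    have h1 := Finset.sum_inter_add_sum_sdiff T T' (fun k => x k)
    have h2 := Finset.sum_inter_add_sum_sdiff T' T (fun k => x k)
    rw [Finset.inter_comm T' T] at h2
    linarith
  set k0 := W.min' hWne with hk0
  have hk0W : k0 ∈ W := Finset.min'_mem _ _
  have hk0min : ∀ k ∈ W, k0 ≤ k := fun k hk => Finset.min'_le _ _ hk
  have hbound : |x k0| ≤ ∑ k ∈ W.erase k0, |x k| := by
    have hdisj : Disjoint (T \ T') (T' \ T) := by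
      rw [Finset.disjoint_left]
      intro a ha hb
      exact (Finset.mem_sdiff.1 hb).2 (Finset.mem_sdiff.1 ha).1
    have hs : ∑ k ∈ W, (if k ∈ T \ T' then x k else - x k) = 0 := by
      rw [hW, Finset.sum_union hdisj]
      have e1 : ∑ k ∈ T \ T', (if k ∈ T \ T' then x k else - x k) = ∑ k ∈ T \ T', x k :=
        Finset.sum_congr rfl (fun k hk => by rw [if_pos hk])
      have e2 : ∑ k ∈ T' \ T, (if k ∈ T \ T' then x k else - x k) = - ∑ k ∈ T' \ T, x k := by
        rw [← Finset.sum_neg_distrib]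
        apply Finset.sum_congr rfl
        intro k hk
        rw [if_neg (fun h => Finset.disjoint_left.1 hdisj h hk)]
      rw [e1, e2, hsd]; ring
    rw [← Finset.add_sum_erase W _ hk0W] at hs
    have h3 : |if k0 ∈ T \ T' then x k0 else - x k0| = |x k0| := by
      split_ifs
      · rfl
      · rw [abs_neg]
    rw [← h3, show (if k0 ∈ T \ T' then x k0 else - x k0) =
      - ∑ k ∈ W.erase k0, (if k ∈ T \ T' then x k else - x k) by linarith, abs_neg]
    refine (Finset.abs_sum_le_sum_abs _ _).trans (Finset.sum_le_sum ?_)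
    intro k _
    split_ifs
    · exact le_rfl
    · rw [abs_neg]
  have hxpos : ∀ k ∈ S, 0 < |x k| := by
    intro k hk
    have h1 := (hx k hk).2.1
    have h2 : (0 : ℤ) < z k := by exact_mod_cast hz k hk
    linarith
  have hlt : ∀ k ∈ S, ∀ l ∈ S, k < l → 3 * |x l| ≤ |x k| := by
    intro k hk l hl hkl
    have h1 := (hx l hl).2.2
    have h2 := (hx k hk).2.1
    have h3 : ((3 * Γ l : ℕ) : ℤ) ≤ z k := by exact_mod_cast hlac k hk l hl hkl
    push_cast at h3
    linarith
  have hls := H393R2.DE.lac_sum (fun k : ℕ => |x k|) _ (W.erase k0) rfl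
    (fun k hk => hxpos k (hWS (Finset.mem_of_mem_erase hk)))
    (by
      intro k hk l hl hkl
      rcases Nat.lt_or_gt_of_ne hkl with h | h
      · right
        exact hlt k (hWS (Finset.mem_of_mem_erase hk)) l (hWS (Finset.mem_of_mem_erase hl)) h
      · left
        exact hlt l (hWS (Finset.mem_of_mem_erase hl)) k (hWS (Finset.mem_of_mem_erase hk)) h)
    (|x k0| / 3) (by positivity) (by
      intro l hl
      have hlW := Finset.mem_of_mem_erase hl
      have h1 : k0 < l := lt_of_le_of_ne (hk0min l hlW) (Finset.ne_of_mem_erase hl).symm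
      have h2 := hlt k0 (hWS hk0W) l (hWS hlW) h1
      omega)
  have h4 := hxpos k0 (hWS hk0W)
  omega

/-- selection of free levels -/
theorem select (L n h l d : ℕ) (z Γ : ℕ → ℕ) (E : ℕ → Finset ℕ) (hz : ∀ k < L, 0 < z k)
    (hlac : ∀ k l, k < l → l < L → 3 * Γ l ≤ z k) (hE : ∀ k < L, (E k).card ≤ n)
    (hl : 8 * (h + 1) ≤ 2 ^ l) (hL : (d + 1) * (d * (n * (2 * (l + 1))) + 1) ≤ L) :
    ∃ κ : ℕ → ℕ, (∀ i ≤ d, κ i < L) ∧ (∀ i j, i < j → j ≤ d → κ i < κ j) ∧
      ∀ i ≤ d, ∀ x : ℤ, Comb ((range i).biUnion (fun j => E (κ j))) h x →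
        ¬ ((z (κ i) : ℤ) ≤ |x| ∧ |x| ≤ Γ (κ i)) := by
  classical
  set W := d * (n * (2 * (l + 1))) + 1 with hW
  have key : ∀ m ≤ d + 1, ∃ κ : ℕ → ℕ, ∀ i < m, (i * W ≤ κ i ∧ κ i < (i + 1) * W) ∧
      ∀ x : ℤ, Comb ((range i).biUnion (fun j => E (κ j))) h x →
        ¬ ((z (κ i) : ℤ) ≤ |x| ∧ |x| ≤ Γ (κ i)) := by
    intro m
    induction m with
    | zero => intro _; exact ⟨fun _ => 0, fun i hi => absurd hi (Nat.not_lt_zero _)⟩
    | succ m ih =>
      intro hm
      obtain ⟨κ, hκ⟩ := ih (by omega)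
      set E' := (range m).biUnion (fun j => E (κ j)) with hE'
      have hLm : (m + 1) * W ≤ L := le_trans (Nat.mul_le_mul_right _ hm) hL
      have hE'c : E'.card ≤ d * n := by
        rw [hE']
        refine Finset.card_biUnion_le.trans ?_
        calc ∑ j ∈ range m, (E (κ j)).card ≤ ∑ j ∈ range m, n := by
              apply Finset.sum_le_sum
              intro j hj
              rw [Finset.mem_range] at hj
              apply hE
              have h1 := (hκ j hj).1.2
              have h2 : (j + 1) * W ≤ (m + 1) * W := Nat.mul_le_mul_right _ (by omega)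
              omega
          _ = m * n := by simp
          _ ≤ d * n := Nat.mul_le_mul_right _ (by omega)
      set S := (Finset.Ico (m * W) ((m + 1) * W)).filter (fun k =>
        ∃ x : ℤ, Comb E' h x ∧ (z k : ℤ) ≤ |x| ∧ |x| ≤ Γ k) with hS
      have hSL : ∀ k ∈ S, k < L := by
        intro k hk
        rw [hS, Finset.mem_filter, Finset.mem_Ico] at hk
        omega
      have hSc : S.card ≤ E'.card * (2 * (l + 1)) :=
        pigeon E' h l S z Γ (fun k hk => hz k (hSL k hk))
          (fun k _ l hl hkl => hlac k l hkl (hSL l hl))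
          (fun k hk => (Finset.mem_filter.1 hk).2) hl
      obtain ⟨k, hk, hkS⟩ : ∃ k ∈ Finset.Ico (m * W) ((m + 1) * W), k ∉ S := by
        apply Finset.exists_mem_notMem_of_card_lt_card
        rw [Nat.card_Ico]
        have h1 : (m + 1) * W - m * W = W := by
          rw [add_mul, one_mul]; omega
        rw [h1]
        have h2 : E'.card * (2 * (l + 1)) ≤ d * n * (2 * (l + 1)) := Nat.mul_le_mul_right _ hE'c
        have h3 : d * n * (2 * (l + 1)) = d * (n * (2 * (l + 1))) := by ring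
        omega
      refine ⟨Function.update κ m k, fun i hi => ?_⟩
      have hup : ∀ j, j ≠ m → Function.update κ m k j = κ j := fun j hj =>
        Function.update_of_ne hj _ _
      have hbi : ∀ i ≤ m, (range i).biUnion (fun j => E (Function.update κ m k j)) =
          (range i).biUnion (fun j => E (κ j)) := by
        intro i hi
        apply Finset.biUnion_congr rfl
        intro j hj
        rw [Finset.mem_range] at hj
        rw [hup j (by omega)]
      rcases Nat.lt_or_ge i m with him | him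
      · rw [hup i (by omega), hbi i him.le]
        exact hκ i him
      · have him' : i = m := by omega
        subst him'
        rw [Function.update_self, hbi i le_rfl]
        rw [Finset.mem_Ico] at hk
        refine ⟨hk, fun x hx hcon => hkS ?_⟩
        rw [hS, Finset.mem_filter, Finset.mem_Ico]
        exact ⟨hk, x, hx, hcon⟩
  obtain ⟨κ, hκ⟩ := key (d + 1) le_rfl
  refine ⟨κ, ?_, ?_, ?_⟩
  · intro i hi
    have h1 := (hκ i (by omega)).1.2
    have h2 : (i + 1) * W ≤ (d + 1) * W := Nat.mul_le_mul_right _ (by omega)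
    omega
  · intro i j hij hj
    have h1 := (hκ i (by omega)).1.2
    have h2 := (hκ j (by omega)).1.1
    have h3 : (i + 1) * W ≤ j * W := Nat.mul_le_mul_right _ (by omega)
    omega
  · intro i hi
    exact (hκ i (by omega)).2

end Pool.Agent.TH842.A3
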