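import Pool.Agent.H52.V.S8.TH842.A3.CoreA

/-!
The core theorem: there are no `d + 1` free lacunary windows with at most `n` jumps.
-/

set_option autoImplicit false

namespace Pool.Agent.TH842.A3

open Finset
open Pool.Agent.H323R2.Gen (pc pc_pow_le pc_aeval_le pc_mul_le pc_sum_le pc_C_le)

section
variable {k : Type} [Field k]

/-- changing the series on a small set -/
lemma mu_aeval_sub (f : Polynomial k) (d : ℕ) (hd : f.natDegree ≤ d) (φ φ' : PowerSeries k)
    (N M : ℕ) (hpc : pc N φ ≤ M) (hpc' : pc N φ' ≤ M) :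
    mu N (Polynomial.aeval φ' f - Polynomial.aeval φ f) ≤
      mu N (φ' - φ) * ((d + 1) * (d * (1 + M) ^ d)) := by
  classical
  have e1 : Polynomial.aeval φ' f - Polynomial.aeval φ f = (φ' - φ) * ∑ j ∈ range (d + 1),
      PowerSeries.C (f.coeff j) * ∑ i ∈ range j, φ' ^ i * φ ^ (j - 1 - i) := by
    rw [Polynomial.aeval_eq_sum_range' (n := d + 1) (by omega),
      Polynomial.aeval_eq_sum_range' (n := d + 1) (by omega), ← Finset.sum_sub_distrib,
      Finset.mul_sum]
    apply Finset.sum_congr rfl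
    intro j _
    rw [PowerSeries.smul_eq_C_mul, PowerSeries.smul_eq_C_mul]
    have := geom_sum₂_mul φ' φ j
    linear_combination (-(PowerSeries.C (f.coeff j))) * this
  rw [e1]
  refine (mu_mul_le _ _ _).trans ?_
  apply Nat.mul_le_mul_left
  refine (pc_sum_le _ _ _).trans ?_
  calc ∑ j ∈ range (d + 1), pc N (PowerSeries.C (f.coeff j) * ∑ i ∈ range j, φ' ^ i * φ ^ (j - 1 - i))
      ≤ ∑ j ∈ range (d + 1), d * (1 + M) ^ d := by
        apply Finset.sum_le_sum
        intro j hj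
        rw [Finset.mem_range] at hj
        refine (pc_mul_le _ _ _).trans ?_
        have h1 : pc N (∑ i ∈ range j, φ' ^ i * φ ^ (j - 1 - i)) ≤ d * (1 + M) ^ d := by
          refine (pc_sum_le _ _ _).trans ?_
          calc ∑ i ∈ range j, pc N (φ' ^ i * φ ^ (j - 1 - i)) ≤ ∑ i ∈ range j, (1 + M) ^ d := by
                apply Finset.sum_le_sum
                intro i hi
                rw [Finset.mem_range] at hi
                calc pc N (φ' ^ i * φ ^ (j - 1 - i)) ≤ pc N (φ' ^ i) * pc N (φ ^ (j - 1 - i)) :=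
                      pc_mul_le _ _ _
                  _ ≤ (1 + M) ^ i * (1 + M) ^ (j - 1 - i) := by
                      apply Nat.mul_le_mul
                      · exact (pc_pow_le N φ' i).trans (Nat.pow_le_pow_left (by omega) _)
                      · exact (pc_pow_le N φ _).trans (Nat.pow_le_pow_left (by omega) _)
                  _ = (1 + M) ^ (i + (j - 1 - i)) := (pow_add _ _ _).symm
                  _ ≤ (1 + M) ^ d := Nat.pow_le_pow_right (by omega) (by omega)
            _ = j * (1 + M) ^ d := by rw [Finset.sum_const, Finset.card_range, smul_eq_mul]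
            _ ≤ d * (1 + M) ^ d := Nat.mul_le_mul_right _ (by omega)
        calc pc N (PowerSeries.C (f.coeff j)) * pc N (∑ i ∈ range j, φ' ^ i * φ ^ (j - 1 - i))
            ≤ 1 * (d * (1 + M) ^ d) := Nat.mul_le_mul (pc_C_le N _) h1
          _ = _ := one_mul _
    _ = (d + 1) * (d * (1 + M) ^ d) := by rw [Finset.sum_const, Finset.card_range, smul_eq_mul]

lemma ee_le (d n α M e0 : ℕ) : ∀ i ≤ d, ee d n α M e0 i ≤
    e0 + i * ((d + 1) * (pp d n d * α * (1 + M) ^ d)) := by
  intro i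
  induction i with
  | zero => intro _; simp [ee]
  | succ i ih =>
    intro hi
    have h1 := ih (by omega)
    simp only [ee]
    have h2 : (d + 1) * (pp d n (i + 1) * α * (1 + M) ^ d) ≤
        (d + 1) * (pp d n d * α * (1 + M) ^ d) := by
      apply Nat.mul_le_mul_left
      apply Nat.mul_le_mul_right
      apply Nat.mul_le_mul_right
      exact pp_mono d n (by omega)
    have h3 : (i + 1) * ((d + 1) * (pp d n d * α * (1 + M) ^ d)) =
        i * ((d + 1) * (pp d n d * α * (1 + M) ^ d)) +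
          (d + 1) * (pp d n d * α * (1 + M) ^ d) := by ring
    omega

/-- part of the window ratio: exceptional sets -/
def W1 (d n M : ℕ) : ℕ :=
  1 + d * n * ((d + 1) * (d * (1 + M) ^ d)) + d * ((d + 1) * (pp d n d * (1 + M) ^ d))

/-- part of the window ratio: positions -/
def W2 (d n : ℕ) : ℕ := 2 * n + 1 + (pp d n d + 1) * (d + 3)

/-- the window ratio -/
def Wr (d n M : ℕ) : ℕ := 2 * (1 + W2 d n * ((d + 1) * (1 + M) ^ d)) + W1 d n M + 4

theorem core_b (f : Polynomial k) (d : ℕ) (hd1 : 1 ≤ d) (hd : f.natDegree ≤ d)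
    (hf : ∀ a, f.eval a ≠ 0)
    (hchar : ∀ j, 1 ≤ j → j ≤ d → ((j : ℕ) : k) ≠ 0)
    (φ : PowerSeries k) (n M e N : ℕ) (z Γ : ℕ → ℕ) (E0 : ℕ → Finset ℕ)
    (hE0 : ∀ i < d, ∀ y, z i < y → y ≤ Γ i → PowerSeries.coeff y φ ≠ 0 → y ∈ E0 i)
    (hE0c : ∀ i < d, (E0 i).card ≤ n)
    (hlac : ∀ i j, i < j → j ≤ d → 3 * Γ j ≤ z i)
    (hΓN : ∀ i ≤ d, Γ i ≤ N) (hpc : pc N φ ≤ M) (hmu : mu N (Polynomial.aeval φ f) ≤ e)
    (hratio : ∀ i ≤ d, Wr d n M * z i ≤ Γ i) (hz1 : ∀ i ≤ d, 1 ≤ z i) (hez : e ≤ z d)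
    (hfree : ∀ i ≤ d, ∀ x : ℤ, Comb ((range i).biUnion E0) (hh d d) x →
        ¬ ((z i : ℤ) ≤ |x| ∧ |x| ≤ Γ i)) : False := by
  classical
  set E : ℕ → Finset ℕ := fun i =>
    (Finset.Ioc (z i) (Γ i)).filter (fun y => PowerSeries.coeff y φ ≠ 0) with hEdef
  have hEmem : ∀ i y, y ∈ E i ↔ z i < y ∧ y ≤ Γ i ∧ PowerSeries.coeff y φ ≠ 0 := by
    intro i y
    simp only [hEdef]
    rw [Finset.mem_filter, Finset.mem_Ioc, and_assoc]
  have hEE0 : ∀ i < d, E i ⊆ E0 i := fun i hi y hy => by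
    obtain ⟨h1, h2, h3⟩ := (hEmem i y).1 hy
    exact hE0 i hi y h1 h2 h3
  have hEc : ∀ i < d, (E i).card ≤ n := fun i hi =>
    (Finset.card_le_card (hEE0 i hi)).trans (hE0c i hi)
  have hκf : ∀ i ≤ d, ∀ x : ℤ, Comb ((range i).biUnion E) (hh d d) x →
        ¬ ((z i : ℤ) ≤ |x| ∧ |x| ≤ Γ i) := by
    intro i hi x hx
    apply hfree i hi x
    apply hx.mono _ le_rfl
    intro y hy
    rw [Finset.mem_biUnion] at hy ⊢
    obtain ⟨j, hj, hy⟩ := hy
    exact ⟨j, hj, hEE0 j (by rw [Finset.mem_range] at hj; omega) hy⟩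
  set α := z d with hα
  set β := Γ d with hβ
  have hα1 : 1 ≤ α := hz1 _ le_rfl
  have hWβ : Wr d n M * α ≤ β := hratio _ le_rfl
  have hW4 : 4 ≤ Wr d n M := by unfold Wr; omega
  have h4αβ : 4 * α ≤ β := (Nat.mul_le_mul_right α hW4).trans hWβ
  set 𝓔 := (range d).biUnion E with h𝓔
  have hfd := hκf d le_rfl
  rw [← h𝓔] at hfd
  have hdich : ∀ x : ℤ, Comb 𝓔 (hh d d) x → |x| < α ∨ (β : ℤ) < |x| := by
    intro x hx
    have h1 := hfd x hx
    by_contra h
    push Not at h
    exact h1 ⟨h.1, h.2⟩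
  have hH2 : 2 ≤ hh d d := by
    have h1 : hh d 1 ≤ hh d d := hh_mono d hd1
    have h2 : hh d 1 = 2 * d := by simp [hh]
    omega
  have h𝓔d : Dich 𝓔 α β := by
    intro x hx y hy hxy
    have h1 := (Comb.single hy).sub (Comb.single hx)
    have h3 := hdich _ (h1.mono (Finset.Subset.refl _) (by omega))
    rw [abs_of_nonneg (by
      have : (x : ℤ) ≤ y := by exact_mod_cast hxy
      linarith)] at h3
    rcases h3 with h3 | h3
    · left; omega
    · right; omega
  have h𝓔mem : ∀ y ∈ 𝓔, ∃ i < d, y ∈ E i := by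
    intro y hy
    rw [h𝓔, Finset.mem_biUnion] at hy
    obtain ⟨i, hi, hy⟩ := hy
    exact ⟨i, Finset.mem_range.1 hi, hy⟩
  have h𝓔supp : ∀ y ∈ 𝓔, PowerSeries.coeff y φ ≠ 0 := by
    intro y hy
    obtain ⟨i, _, h⟩ := h𝓔mem y hy
    exact ((hEmem _ y).1 h).2.2
  have h𝓔c : 𝓔.card ≤ d * n := by
    rw [h𝓔]
    refine Finset.card_biUnion_le.trans ?_
    calc ∑ j ∈ range d, (E j).card ≤ ∑ j ∈ range d, n := by
          apply Finset.sum_le_sum
          intro j hj
          rw [Finset.mem_range] at hj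
          exact hEc _ hj
      _ = d * n := by simp
  set c : ℕ → ℕ := rep 𝓔 α with hc
  have hcs : ∀ y ∈ 𝓔, c y ∈ 𝓔 ∧ c y ≤ y ∧ y ≤ c y + α := fun y hy => by
    obtain ⟨h1, h2, h3⟩ := rep_spec hα1 hy
    exact ⟨h1, h2, h3.le⟩
  -- the collapsed series
  set R : PowerSeries k := Col 𝓔 id φ with hR
  have hRc : ∀ x, PowerSeries.coeff x R = if x ∈ 𝓔 then PowerSeries.coeff x φ else 0 := by
    intro x
    rw [hR, coeff_Col]
    simp only [id]
    rw [Finset.sum_filter, Finset.sum_ite_eq' 𝓔 x]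
  have hRsupp : ∀ y, PowerSeries.coeff y R ≠ 0 → y ∈ 𝓔 := by
    intro y hy
    rw [hRc] at hy
    by_contra h
    rw [if_neg h] at hy
    exact hy rfl
  set φc : PowerSeries k := φ - (R - Col 𝓔 c R) with hφc
  have hColx : ∀ x, x ∉ 𝓔.image c → PowerSeries.coeff x (Col 𝓔 c R) = 0 := by
    intro x hx
    rw [coeff_Col]
    apply Finset.sum_eq_zero
    intro y hy
    rw [Finset.mem_filter] at hy
    exact absurd (Finset.mem_image.2 ⟨y, hy.1, hy.2⟩) hx
  have hφc1 : ∀ x, PowerSeries.coeff x φc ≠ 0 → PowerSeries.coeff x φ ≠ 0 ∧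
      (x ∈ 𝓔 → x ∈ 𝓔.image c) := by
    intro x hx
    rw [hφc, map_sub, map_sub, hRc] at hx
    by_cases hxE : x ∈ 𝓔
    · refine ⟨h𝓔supp x hxE, fun _ => ?_⟩
      by_contra h
      apply hx
      rw [if_pos hxE, hColx x h]; ring
    · rw [if_neg hxE] at hx
      have h1 : x ∉ 𝓔.image c := by
        intro h
        obtain ⟨y, hy, rfl⟩ := Finset.mem_image.1 h
        exact hxE (hcs y hy).1
      rw [hColx x h1] at hx
      refine ⟨by simpa using hx, fun h => absurd h hxE⟩
  have hpcc : pc N φc ≤ M := by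
    refine le_trans (pc_of_supp ?_) hpc
    intro x _ hx
    exact (hφc1 x hx).1
  have hmuc : mu N (φc - φ) ≤ d * n * α := by
    have e1 : φc - φ = -((R - Col 𝓔 c R) * 1) := by rw [hφc]; ring
    rw [e1, mu_neg]
    refine (mu_Col N 𝓔 c α (fun y hy => (hcs y hy).2) R hRsupp 1).trans ?_
    have h1 : pc N (1 : PowerSeries k) ≤ 1 := by
      have := pc_C_le N (1 : k)
      rwa [map_one] at this
    calc 𝓔.card * α * pc N (1 : PowerSeries k) ≤ d * n * α * 1 :=
          Nat.mul_le_mul (Nat.mul_le_mul_right _ h𝓔c) h1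
      _ = _ := mul_one _
  set e0 : ℕ := e + d * n * α * ((d + 1) * (d * (1 + M) ^ d)) with he0
  have hmu0 : mu N (Polynomial.aeval φc f) ≤ e0 := by
    have e1 : Polynomial.aeval φc f = Polynomial.aeval φ f +
        (Polynomial.aeval φc f - Polynomial.aeval φ f) := by ring
    rw [e1]
    refine (mu_add_le _ _ _).trans ?_
    apply Nat.add_le_add hmu
    refine (mu_aeval_sub f d hd φ φc N M hpc hpcc).trans ?_
    exact Nat.mul_le_mul_right _ hmuc
  -- sizes
  have heα : e ≤ α := hez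
  have hee1 : ee d n α M e0 d ≤ W1 d n M * α := by
    refine (ee_le d n α M e0 d le_rfl).trans ?_
    unfold W1
    have e1 : (1 + d * n * ((d + 1) * (d * (1 + M) ^ d)) + d * ((d + 1) * (pp d n d * (1 + M) ^ d))) * α
        = α + d * n * α * ((d + 1) * (d * (1 + M) ^ d)) +
          d * ((d + 1) * (pp d n d * α * (1 + M) ^ d)) := by ring
    rw [e1, he0]
    omega
  have hee2 : ee d n α M e0 d < β := by
    refine lt_of_lt_of_le ?_ hWβ
    refine lt_of_le_of_lt hee1 ?_
    apply Nat.mul_lt_mul_of_pos_right _ hα1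
    unfold Wr
    omega
  have he0ee : e0 ≤ ee d n α M e0 d := by
    have := ee_mono d n α M e0 (Nat.zero_le d)
    simpa [ee] using this
  -- the windows
  set E' : ℕ → Finset ℕ := fun i =>
    (Finset.Ioc (z i) (Γ i)).filter (fun y => PowerSeries.coeff y φc ≠ 0) with hE'
  have hE'mem : ∀ i y, y ∈ E' i ↔ z i < y ∧ y ≤ Γ i ∧ PowerSeries.coeff y φc ≠ 0 := by
    intro i y
    simp only [hE']
    rw [Finset.mem_filter, Finset.mem_Ioc, and_assoc]
  have hE'E : ∀ i, E' i ⊆ E i := by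
    intro i y hy
    rw [hE'mem] at hy
    rw [hEmem]
    exact ⟨hy.1, hy.2.1, (hφc1 y hy.2.2).1⟩
  have hE'im : ∀ i < d, E' i ⊆ 𝓔.image c := by
    intro i hi y hy
    have h1 := hE'E i hy
    have h2 : y ∈ 𝓔 := by
      rw [h𝓔, Finset.mem_biUnion]
      exact ⟨i, Finset.mem_range.2 hi, h1⟩
    exact (hφc1 y ((hE'mem i y).1 hy).2.2).2 h2
  have hbi : ∀ i, (range i).biUnion E' ⊆ (range i).biUnion E := by
    intro i
    exact Finset.biUnion_mono (fun j _ => hE'E j)
  have hβz : ∀ i < d, β ≤ z i := by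
    intro i hi
    have := hlac i d hi le_rfl
    omega
  refine core_a f d hd hf φc α β (n := n) (M := M) (e0 := e0) (H := hh d d) (N := N)
    (z := z) (Γ := Γ)
    (X1 := fun i => n * (z i + α) + α + (pp d n d + 1) *
      (d * z i + ee d n α M e0 d + 2)) (E := E') hchar ?_ ?_ ?_ ?_ le_rfl ?_ ?_ hα1 (by omega)
    ?_ hβz ?_ ?_ ?_ hpcc hmu0 ?_ (fun i _ => le_rfl) hee2
  · intro i hi y h1 h2 h3
    exact (hE'mem i y).2 ⟨h1, h2, h3⟩
  · intro i hi y hy
    exact (hE'mem i y).1 hy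
  · intro i hi
    exact (Finset.card_le_card (hE'E i)).trans (hEc _ hi)
  · intro i hi
    exact (rep_sep hα1 (by omega) h𝓔d).mono (hE'im i hi)
  · intro i hi x hx
    exact hκf i (by omega) x (hx.mono (hbi i) le_rfl)
  · intro x hx
    exact hdich x (hx.mono (hbi d) le_rfl)
  · intro i hi
    have := hlac i (i + 1) (by omega) (by omega)
    omega
  · intro i hi
    exact (Nat.mul_le_mul_right _ hW4).trans (hratio i hi.le)
  · intro i hi
    exact hΓN _ hi.le
  · exact hΓN _ le_rfl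
  · intro i hi
    have h1 := hβz i hi
    have h2 := hratio i hi.le
    set zi := z i with hzi
    have hzi1 : 1 ≤ zi := hz1 _ hi.le
    have h3 : n * (zi + α) + α + (pp d n d + 1) * (d * zi + ee d n α M e0 d + 2) ≤
        W2 d n * zi := by
      unfold W2
      have e1 : n * (zi + α) ≤ n * (zi + zi) := Nat.mul_le_mul_left _ (by omega)
      have e2 : (pp d n d + 1) * (d * zi + ee d n α M e0 d + 2) ≤
          (pp d n d + 1) * (d * zi + zi + 2 * zi) := Nat.mul_le_mul_left _ (by omega)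
      have e3 : (2 * n + 1 + (pp d n d + 1) * (d + 3)) * zi =
          n * (zi + zi) + zi + (pp d n d + 1) * (d * zi + zi + 2 * zi) := by ring
      rw [e3]
      omega
    have h4 : e0 + (n * (zi + α) + α + (pp d n d + 1) * (d * zi + ee d n α M e0 d + 2)) *
        ((d + 1) * (1 + M) ^ d) ≤ (1 + W2 d n * ((d + 1) * (1 + M) ^ d)) * zi := by
      have e1 := Nat.mul_le_mul_right ((d + 1) * (1 + M) ^ d) h3
      have e2 : (1 + W2 d n * ((d + 1) * (1 + M) ^ d)) * zi =
          zi + W2 d n * zi * ((d + 1) * (1 + M) ^ d) := by ring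
      rw [e2]
      omega
    rw [Nat.le_div_iff_mul_le (by norm_num)]
    refine (Nat.mul_le_mul_right 2 h4).trans (le_trans ?_ h2)
    have e3 : (1 + W2 d n * ((d + 1) * (1 + M) ^ d)) * zi * 2 =
        (2 * (1 + W2 d n * ((d + 1) * (1 + M) ^ d))) * zi := by ring
    rw [e3]
    apply Nat.mul_le_mul_right
    unfold Wr
    omega

end

end Pool.Agent.TH842.A3
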