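import Pool.Agent.H52.V.S8.TH842.A3.Stage

/-!
Induction over the stages: no separated series can satisfy an equation without roots.
-/

set_option autoImplicit false

namespace Pool.Agent.TH842.A3

open Finset
open Pool.Agent.H323R2.Gen (pc pc_pow_le pc_aeval_le)

section
variable {k : Type} [Field k]

/-- if the series has no coefficient in a long interval, the constant is a root -/
lemma nc (f : Polynomial k) (d : ℕ) (hd : f.natDegree ≤ d) (hf : ∀ a, f.eval a ≠ 0)
    (φ : PowerSeries k) (X1 X2 M e : ℕ) (hpc : pc X2 φ ≤ M)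
    (hmu : mu X2 (Polynomial.aeval φ f) ≤ e) (hX : e + X1 * ((d + 1) * (1 + M) ^ d) ≤ X2)
    (_h12 : X1 ≤ X2) : ∃ y, X1 < y ∧ y ≤ X2 ∧ PowerSeries.coeff y φ ≠ 0 := by
  classical
  by_contra hcon
  push Not at hcon
  set a : k := val φ X1 with ha
  have hconst : ∀ R, X1 ≤ R → R ≤ X2 → val φ R = a := by
    intro R h1 h2
    exact val_const φ h1 (fun y h3 h4 => hcon y h3 (by omega))
  have hmu1 : mu X2 (φ - PowerSeries.C a) ≤ X1 := by
    rw [mu_eq]
    calc _ ≤ (range X1).card := by
          apply Finset.card_le_card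
          intro R hR
          rw [Finset.mem_filter, Finset.mem_range] at hR
          rw [Finset.mem_range]
          by_contra h
          apply hR.2
          rw [val_sub, val_C, hconst R (by omega) (by omega), sub_self]
      _ = X1 := Finset.card_range _
  obtain ⟨h, hh⟩ : (Polynomial.X - Polynomial.C a) ∣ f - Polynomial.C (f.eval a) :=
    Polynomial.X_sub_C_dvd_sub_C_eval
  have hhd : h.natDegree ≤ d := by
    by_cases h0 : h = 0
    · rw [h0]; simp
    · have h1 : ((Polynomial.X - Polynomial.C a) * h).natDegree = 1 + h.natDegree := by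
        rw [(Polynomial.monic_X_sub_C a).natDegree_mul' h0, Polynomial.natDegree_X_sub_C]
      have h2 : ((Polynomial.X - Polynomial.C a) * h).natDegree ≤ d := by
        rw [← hh]
        refine (Polynomial.natDegree_sub_le _ _).trans (max_le hd ?_)
        rw [Polynomial.natDegree_C]; omega
      omega
  have hAe : PowerSeries.C (f.eval a) = Polynomial.aeval φ f -
      (φ - PowerSeries.C a) * Polynomial.aeval φ h := by
    have h1 := congrArg (Polynomial.aeval φ) hh
    rw [map_sub, map_mul, map_sub, Polynomial.aeval_X, Polynomial.aeval_C, Polynomial.aeval_C] at h1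
    have e1 : ∀ x : k, algebraMap k (PowerSeries k) x = PowerSeries.C x := fun x => rfl
    rw [e1, e1] at h1
    linear_combination -h1
  have h1 := mu_C X2 (f.eval a) (hf a)
  rw [hAe] at h1
  have h2 := mu_sub_le X2 (Polynomial.aeval φ f) ((φ - PowerSeries.C a) * Polynomial.aeval φ h)
  have h3 := mu_mul_le X2 (φ - PowerSeries.C a) (Polynomial.aeval φ h)
  have h4 : mu X2 (φ - PowerSeries.C a) * pc X2 (Polynomial.aeval φ h) ≤
      X1 * ((d + 1) * (1 + M) ^ d) := by
    apply Nat.mul_le_mul hmu1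
    refine (pc_aeval_le X2 φ h d hhd).trans ?_
    apply Nat.mul_le_mul_left
    exact Nat.pow_le_pow_left (by omega) _
  omega

/-- sizes of the combinations -/
def hh (d : ℕ) : ℕ → ℕ
  | 0 => 0
  | i + 1 => 2 * (hh d i + d)

/-- number of positions -/
def pp (d n : ℕ) : ℕ → ℕ
  | 0 => 1
  | i + 1 => pp d n i * (1 + n) ^ d

/-- sizes of the exceptional sets -/
def ee (d n α M e0 : ℕ) : ℕ → ℕ
  | 0 => e0
  | i + 1 => ee d n α M e0 i + (d + 1) * (pp d n (i + 1) * α * (1 + M) ^ d)

lemma hh_mono (d : ℕ) {i j : ℕ} (h : i ≤ j) : hh d i ≤ hh d j := by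
  induction j, h using Nat.le_induction with
  | base => exact le_rfl
  | succ j _ ih => simp only [hh]; omega

lemma pp_mono (d n : ℕ) {i j : ℕ} (h : i ≤ j) : pp d n i ≤ pp d n j := by
  induction j, h using Nat.le_induction with
  | base => exact le_rfl
  | succ j _ ih =>
    simp only [pp]
    exact ih.trans (Nat.le_mul_of_pos_right _ (by positivity))

lemma ee_mono (d n α M e0 : ℕ) {i j : ℕ} (h : i ≤ j) : ee d n α M e0 i ≤ ee d n α M e0 j := by
  induction j, h using Nat.le_induction with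
  | base => exact le_rfl
  | succ j _ ih => simp only [ee]; omega

theorem core_ind (φ : PowerSeries k) (d α β M n e0 H : ℕ) (z Γ X1 : ℕ → ℕ) (E : ℕ → Finset ℕ)
    (hchar : ∀ j, 1 ≤ j → j ≤ d → ((j : ℕ) : k) ≠ 0)
    (hE : ∀ i < d, ∀ y, z i < y → y ≤ Γ i → PowerSeries.coeff y φ ≠ 0 → y ∈ E i)
    (hE2 : ∀ i < d, ∀ y ∈ E i, z i < y ∧ y ≤ Γ i ∧ PowerSeries.coeff y φ ≠ 0)
    (hEn : ∀ i < d, (E i).card ≤ n) (hEsep : ∀ i < d, Sep (E i) β)
    (hH : hh d d ≤ H)
    (hfree : ∀ i < d, ∀ x : ℤ, Comb ((range i).biUnion E) H x → ¬ ((z i : ℤ) ≤ |x| ∧ |x| ≤ Γ i))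
    (hdich : ∀ x : ℤ, Comb ((range d).biUnion E) H x → |x| < α ∨ (β : ℤ) < |x|)
    (hα : 1 ≤ α) (hαβ : 2 * α ≤ β)
    (hord : ∀ i, i + 1 < d → Γ (i + 1) ≤ z i) (hordβ : ∀ i < d, β ≤ z i)
    (hzΓ : ∀ i < d, 4 * z i ≤ Γ i)
    (hpc : ∀ i < d, pc (Γ i) φ ≤ M)
    (hnc : ∀ i < d, ∃ x ∈ E i, X1 i < x ∧ 2 * x ≤ Γ i)
    (hX1 : ∀ i < d, n * (z i + α) + α + (pp d n d + 1) * (d * z i + ee d n α M e0 d + 2) ≤ X1 i)
    (hee : ee d n α M e0 d < β) :
    ∀ δ i : ℕ, i + δ ≤ d → ∀ (Z : ℕ) (A : ℕ → PowerSeries k) (Ms : Finset ℕ),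
      (i < d → Γ i ≤ Z) → β ≤ Z →
      (∀ j ≤ δ, ∀ y, PowerSeries.coeff y (A j) ≠ 0 → y ∈ Ms) →
      (∃ j ≤ δ, PowerSeries.coeff 0 (A j) ≠ 0) →
      (∀ y ∈ Ms, Comb ((range i).biUnion E) (hh d i) (y : ℤ)) →
      Sep Ms β → Ms.card ≤ pp d n i →
      mu Z (∑ j ∈ range (δ + 1), A j * φ ^ j) ≤ ee d n α M e0 i → False := by
  classical
  intro δ
  induction δ with
  | zero =>
    intro i hi Z A Ms hZ hZβ hA h0 hC hsep hcard hmu
    obtain ⟨j, hj, h0j⟩ := h0
    have hj0 : j = 0 := by omega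
    subst hj0
    have h0M : 0 ∈ Ms := hA 0 le_rfl 0 h0j
    rw [zero_add, Finset.sum_range_one, pow_zero, mul_one] at hmu
    have hval : ∀ R ≤ β, val (A 0) R = PowerSeries.coeff 0 (A 0) := by
      intro R hR
      rw [val_const (A 0) (Nat.zero_le R), val_eq_sum]
      · simp
      · intro y h1 h2
        by_contra hne
        have := hsep 0 h0M y (hA 0 le_rfl y hne) h1
        omega
    have h1 : β + 1 ≤ mu Z (A 0) := by
      rw [mu_eq]
      calc β + 1 = (range (β + 1)).card := (Finset.card_range _).symm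
        _ ≤ _ := by
            apply Finset.card_le_card
            intro R hR
            rw [Finset.mem_range] at hR
            rw [Finset.mem_filter, Finset.mem_range]
            refine ⟨by omega, ?_⟩
            rw [hval R (by omega)]
            exact h0j
    have h2 := ee_mono d n α M e0 (show i ≤ d by omega)
    omega
  | succ δ ih =>
    intro i hi Z A Ms hZ hZβ hA h0 hC hsep hcard hmu
    have hid : i < d := by omega
    have hΓZ := hZ hid
    have hfr := hfree i hid
    have hhi : hh d i ≤ H := (hh_mono d (show i ≤ d by omega)).trans hH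
    -- truncation
    set At : ℕ → PowerSeries k := fun j => tr (z i + 1) (A j) with hAt
    set Mt : Finset ℕ := Ms.filter (fun y => y ≤ z i) with hMt
    have hagr : ∀ j ≤ δ + 1, Agr (Γ i) (A j) (At j) := by
      intro j hj y hy
      simp only [hAt]
      rw [coeff_tr]
      by_cases h1 : y < z i + 1
      · rw [if_pos h1]
      · rw [if_neg h1]
        by_contra hne
        have h2 := hA j hj y hne
        have h3 := hfr _ ((hC y h2).mono (Finset.Subset.refl _) hhi)
        apply h3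
        rw [abs_of_nonneg (Int.natCast_nonneg _)]
        constructor
        · exact_mod_cast (by omega : z i ≤ y)
        · exact_mod_cast hy
    have hmut : mu (Γ i) (∑ j ∈ range (δ + 2), At j * φ ^ j) ≤ ee d n α M e0 i := by
      refine le_trans (le_of_eq ?_) ((mu_mono hΓZ _).trans hmu)
      apply mu_congr
      intro y hy
      refine ((Agr.sum (fun j hj => ?_)) y hy).symm
      rw [Finset.mem_range] at hj
      exact (hagr j (by omega)).mul (Agr.refl _ _)
    have hAtM : ∀ j ≤ δ + 1, ∀ y, PowerSeries.coeff y (At j) ≠ 0 → y ∈ Mt := by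
      intro j hj y hy
      simp only [hAt] at hy
      rw [coeff_tr] at hy
      by_cases h1 : y < z i + 1
      · rw [if_pos h1] at hy
        exact Finset.mem_filter.2 ⟨hA j hj y hy, by omega⟩
      · rw [if_neg h1] at hy
        exact absurd rfl hy
    have hMtM : Mt ⊆ Ms := Finset.filter_subset _ _
    have h0t : ∃ j ≤ δ + 1, PowerSeries.coeff 0 (At j) ≠ 0 := by
      obtain ⟨j, hj, hne⟩ := h0
      refine ⟨j, hj, ?_⟩
      simp only [hAt]
      rw [coeff_tr, if_pos (by omega)]
      exact hne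
    by_cases htop : At (δ + 1) = 0
    · refine ih i (by omega) (Γ i) At Mt (fun _ => le_rfl) ?_ (fun j hj => hAtM j (by omega)) ?_
        (fun y hy => hC y (hMtM hy)) (hsep.mono hMtM) ((Finset.card_le_card hMtM).trans hcard) ?_
      · have := hordβ i hid
        have := hzΓ i hid
        omega
      · obtain ⟨j, hj, hne⟩ := h0t
        refine ⟨j, ?_, hne⟩
        by_contra hcon
        have : j = δ + 1 := by omega
        rw [this, htop, map_zero] at hne
        exact hne rfl
      · rw [Finset.sum_range_succ, htop, zero_mul, add_zero] at hmut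
        exact hmut
    · have hEi : E i ⊆ (range (i + 1)).biUnion E := by
        intro y hy
        rw [Finset.mem_biUnion]
        exact ⟨i, Finset.mem_range.2 (by omega), hy⟩
      have hmonoU : ∀ a b : ℕ, a ≤ b → (range a).biUnion E ⊆ (range b).biUnion E := by
        intro a b hab
        exact Finset.biUnion_subset_biUnion_of_subset_left _ (Finset.range_subset_range.2 hab)
      have hpp1 : pp d n (i + 1) ≤ pp d n d := pp_mono d n (by omega)
      have hee1 : ee d n α M e0 (i + 1) ≤ ee d n α M e0 d := ee_mono d n α M e0 (by omega)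
      have h2h : 2 * (hh d i + (δ + 1)) ≤ hh d (i + 1) := by
        simp only [hh]; omega
      obtain ⟨B, Ms', b1, b2, b3, b4, b5, b6⟩ := stage φ δ (z i) (Γ i) α β M n
        (ee d n α M e0 i) (pp d n i) (hh d i) At Mt (E i) ((range (i + 1)).biUnion E)
        (hchar (δ + 1) (by omega) (by omega)) hAtM (fun y hy => (Finset.mem_filter.1 hy).2) htop
        hmut (hE i hid) (hE2 i hid) (hEn i hid) (hEsep i hid) (hsep.mono hMtM)
        (fun y hy => (hC y (hMtM hy)).mono (hmonoU _ _ (by omega)) le_rfl) hEi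
        (fun x hx => hdich x (hx.mono (hmonoU _ _ (by omega))
          (h2h.trans ((hh_mono d (show i + 1 ≤ d by omega)).trans hH)))) hα hαβ (hpc i hid)
        ((Finset.card_le_card hMtM).trans hcard) (X1 i) (hnc i hid) (pp d n (i + 1))
        (ee d n α M e0 (i + 1)) (by
          simp only [pp]
          exact Nat.mul_le_mul_left _ (Nat.pow_le_pow_right (by omega) (by omega))) (by
          conv_rhs => rw [ee]
          apply Nat.add_le_add_left
          apply Nat.mul_le_mul (by omega)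
          apply Nat.mul_le_mul_left
          exact Nat.pow_le_pow_right (by omega) (by omega)) (by
          refine le_trans ?_ (hX1 i hid)
          apply Nat.add_le_add_left
          apply Nat.mul_le_mul (by omega)
          have : (δ + 1) * z i ≤ d * z i := Nat.mul_le_mul_right _ (by omega)
          omega) (hzΓ i hid)
      refine ih (i + 1) (by omega) (z i) B Ms' (hord i) (hordβ i hid) b1 b2
        (fun y hy => (b3 y hy).mono (Finset.Subset.refl _) h2h) b4 b5 b6

/-- the contradiction for separated series -/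
theorem core_a (f : Polynomial k) (d : ℕ) (hd : f.natDegree ≤ d) (hf : ∀ a, f.eval a ≠ 0)
    (φ : PowerSeries k) (α β M n e0 H N : ℕ) (z Γ X1 : ℕ → ℕ)
    (E : ℕ → Finset ℕ)
    (hchar : ∀ j, 1 ≤ j → j ≤ d → ((j : ℕ) : k) ≠ 0)
    (hE : ∀ i < d, ∀ y, z i < y → y ≤ Γ i → PowerSeries.coeff y φ ≠ 0 → y ∈ E i)
    (hE2 : ∀ i < d, ∀ y ∈ E i, z i < y ∧ y ≤ Γ i ∧ PowerSeries.coeff y φ ≠ 0)
    (hEn : ∀ i < d, (E i).card ≤ n) (hEsep : ∀ i < d, Sep (E i) β)
    (hH : hh d d ≤ H)
    (hfree : ∀ i < d, ∀ x : ℤ, Comb ((range i).biUnion E) H x → ¬ ((z i : ℤ) ≤ |x| ∧ |x| ≤ Γ i))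
    (hdich : ∀ x : ℤ, Comb ((range d).biUnion E) H x → |x| < α ∨ (β : ℤ) < |x|)
    (hα : 1 ≤ α) (hαβ : 2 * α ≤ β)
    (hord : ∀ i, i + 1 < d → Γ (i + 1) ≤ z i) (hordβ : ∀ i < d, β ≤ z i)
    (hzΓ : ∀ i < d, 4 * z i ≤ Γ i) (hΓN : ∀ i < d, Γ i ≤ N) (hβN : β ≤ N)
    (hpc : pc N φ ≤ M) (hmu : mu N (Polynomial.aeval φ f) ≤ e0)
    (hX12 : ∀ i < d, e0 + X1 i * ((d + 1) * (1 + M) ^ d) ≤ Γ i / 2)
    (hX1 : ∀ i < d, n * (z i + α) + α + (pp d n d + 1) * (d * z i + ee d n α M e0 d + 2) ≤ X1 i)
    (hee : ee d n α M e0 d < β) : False := by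
  classical
  have hnc : ∀ i < d, ∃ x ∈ E i, X1 i < x ∧ 2 * x ≤ Γ i := by
    intro i hi
    have h1 := hX12 i hi
    have h2 := hΓN i hi
    have h3 : X1 i ≤ X1 i * ((d + 1) * (1 + M) ^ d) := Nat.le_mul_of_pos_right _ (by positivity)
    obtain ⟨y, hy1, hy2, hy3⟩ := nc f d hd hf φ (X1 i) (Γ i / 2) M e0
      ((pc_mono (by omega) φ).trans hpc) ((mu_mono (by omega) _).trans hmu) h1 (by omega)
    have h4 := hX1 i hi
    have h5 : z i ≤ X1 i := by
      have e1 : z i ≤ d * z i := Nat.le_mul_of_pos_left _ (by omega)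
      have e2 : d * z i + ee d n α M e0 d + 2 ≤
          (pp d n d + 1) * (d * z i + ee d n α M e0 d + 2) :=
        Nat.le_mul_of_pos_left _ (Nat.succ_pos _)
      omega
    exact ⟨y, hE i hi y (by omega) (by omega) hy3, hy1, by omega⟩
  have hf0 : f ≠ 0 := by
    intro h
    apply hf 0
    rw [h, Polynomial.eval_zero]
  refine core_ind φ d α β M n e0 H z Γ X1 E hchar hE hE2 hEn hEsep hH hfree hdich hα hαβ hord hordβ
    hzΓ (fun i hi => (pc_mono (hΓN i hi) φ).trans hpc) hnc hX1 hee d 0 (by omega) N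
    (fun j => PowerSeries.C (f.coeff j)) {0} (fun h => hΓN 0 h) hβN ?_ ?_ ?_ ?_ ?_ ?_
  · intro j _ y hy
    rw [Finset.mem_singleton]
    by_contra h
    apply hy
    rw [PowerSeries.coeff_C, if_neg h]
  · refine ⟨f.natDegree, hd, ?_⟩
    rw [PowerSeries.coeff_zero_C]
    rw [Polynomial.coeff_natDegree]
    exact Polynomial.leadingCoeff_ne_zero.2 hf0
  · intro y hy
    rw [Finset.mem_singleton] at hy
    rw [hy]
    exact Comb.zero _ _
  · intro x hx y hy hxy
    rw [Finset.mem_singleton] at hx hy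
    omega
  · simp [pp]
  · refine le_trans (le_of_eq ?_) hmu
    congr 1
    rw [Polynomial.aeval_eq_sum_range' (n := d + 1) (by omega)]
    apply Finset.sum_congr rfl
    intro i _
    rw [PowerSeries.smul_eq_C_mul]

end

end Pool.Agent.TH842.A3
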