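import Pool.Agent.H52.V.S8.TH842.A3.SP
import Pool.Agent.H52.V.S8.TH842.A3.Asym5
import Pool.Agent.H52.V.S8.TH842.A3.Out5
import Pool.Agent.H52.V.S8.TH461.A3.WalkPow
import Pool.Agent.H52.V.S8.TH761.A3Frob
import Pool.Agent.H52.V.S8.H323R2.NT2

/-!
# Exponent 3 for all real algebraic irrationals: the growth statement
-/

set_option autoImplicit false

namespace Pool.Agent.TH842.A3

open Finset Polynomial

theorem mg5 : MG5 := by
  intro f hf hirr hd2 b hb t C0 ht U hU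
  obtain ⟨c, g, hSP⟩ := sp f f.natDegree rfl hd2 b U
    (fun q _ G N R hbq hs hR hbad =>
      Pool.Agent.TH761.A3Frob.s_dil f hf _ rfl hd2 b G q hbq hs N R hR hbad)
    (Pool.Agent.TH761.A3Frob.sep_of_large f hf hirr)
  exact asym5 f hf _ rfl hd2 b hb t C0 ht U hU
    (Pool.Agent.H323R2.NT.supply f hf hirr hd2 b (by omega)) c g _ (Nat.factorial_pos _) hSP
    (Pool.Agent.TH461.A3.walk_pow _ (Nat.factorial_pos _))

/-- all nontrivial relations between the digits of one number -/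
theorem relations_one (x : ℝ) (halg : IsAlgebraic ℚ x) (hirr : Irrational x)
    (b : ℕ) (hb : 2 ≤ b) (m : ℕ) (q : ℕ → ℤ) (hq : ∃ j, j ≤ m ∧ q j ≠ 0) (e : ℤ) :
    ∃ c : ℝ, 0 < c ∧ ∃ N0 : ℕ, ∀ N : ℕ, N0 ≤ N →
      c * (Real.log N) ^ 3 / (Real.log (Real.log N)) ^ 5 ≤
        (((Icc 1 N).filter (fun k : ℕ =>
          ∑ j ∈ range (m + 1), q j * Pool.Agent.H393R2.DC.digit b x (k + j) ≠ e)).card : ℝ) := by
  have h := Out5.relations5 mg5 (n := 1) (fun _ => x) (fun _ => halg) (by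
    intro z hz
    have hz0 : z 0 ≠ 0 := by
      intro h0
      apply hz
      funext i
      rw [Subsingleton.elim i 0, h0]; rfl
    simpa using hirr.intCast_mul hz0) b hb m (fun _ => q) (by
    obtain ⟨j, hj, h0⟩ := hq
    exact ⟨0, j, hj, h0⟩) e
  simpa using h

end Pool.Agent.TH842.A3
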