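import Pool.Agent.H52.V.S8.H393R2.DE.Lift
import Pool.Agent.H52.V.S8.TH842.A3.Mu

/-!
Chains below the jumps, for a function invariant under division by `q` off a small set.
-/

set_option autoImplicit false

namespace Pool.Agent.TH842.A3

open Finset
open Pool.Agent.H393R2.DC (UU mem_UU compl_card)
open H393R2.DE (Jmp mem_Jmp exists_Jmp uu_exists lft lft_spec)

section

variable {F : Type} {s : ℕ → F} {q K1 N : ℕ} {E D : Finset ℕ}

theorem iter' (hdil : ∀ R ≤ N, R ∉ E → s (R / q) = s R) {x : ℕ}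
    (hx : x ∈ UU q K1 E N) : ∀ k ≤ K1, s (x / q ^ k) = s x := by
  rw [mem_UU] at hx
  intro k
  induction k with
  | zero => intro _; simp
  | succ k ih =>
    intro hk
    have h1 := ih (by omega)
    have h2 := hdil (x / q ^ k) ((Nat.div_le_self _ _).trans hx.1) (hx.2 k (by omega))
    rw [pow_succ, ← Nat.div_div_eq_div_mul, h2, h1]

/-- the chains below the jumps -/
theorem chains' [CommRing F] (hq : 2 ≤ q) (hdil : ∀ R ≤ N, R ∉ E → s (R / q) = s R)
    (hD : ∀ x y, x ≤ y → y ≤ N → s x ≠ s y → ∃ d ∈ D, x < d ∧ d ≤ y)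
    {w P K2 : ℕ} (hP0 : 1 ≤ P) (hw : w ∈ UU q (K2 + P) E N) (hwN : w + E.card * q ^ K2 + 1 ≤ N)
    (J : Finset ℕ) (hJ : J = Jmp (UU q K2 E N) s (w / q ^ P) w) :
    ∃ (A : Finset ℕ) (δ : ℕ → ℕ → ℕ), (∀ u ∈ A, w / q ^ P ≤ u) ∧
      (∀ u ∈ A, ∀ k ≤ K2, δ u k ∈ D ∧ 0 < δ u k ∧ u < q ^ k * δ u k ∧
        q ^ k * δ u k ≤ u + (E.card * q ^ K2 + 1)) ∧
      (∀ u ∈ A, ∀ u' ∈ A, ∀ k ≤ K2, ∀ k' ≤ K2, δ u k = δ u' k' → u = u' ∧ k = k') ∧
      J.card ≤ P * A.card := by
  classical
  set V := UU q K2 E N with hV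
  have hqpos : 0 < q := by omega
  -- the quotients of `w` are in `V`
  have hwV : ∀ i ≤ P, w / q ^ i ∈ V := by
    intro i hi
    rw [hV, mem_UU]
    rw [mem_UU] at hw
    refine ⟨(Nat.div_le_self _ _).trans hw.1, fun k hk => ?_⟩
    rw [Nat.div_div_eq_div_mul, ← pow_add]
    exact hw.2 (i + k) (by omega)
  -- successor
  have hsucc : ∀ u ∈ J, ∃ v ∈ V, u < v ∧ v ≤ w ∧ s v ≠ s u ∧
      ∀ x ∈ V, x ≤ u ∨ v ≤ x := by
    intro u hu
    rw [hJ, mem_Jmp] at hu
    exact hu.2.2
  choose! nx hnx using hsucc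
  have huV : ∀ u ∈ J, u ∈ V ∧ w / q ^ P ≤ u := by
    intro u hu
    rw [hJ, mem_Jmp] at hu
    exact ⟨hu.1, hu.2.1⟩
  have hδ : ∀ u ∈ J, ∀ k ≤ K2, ∃ d ∈ D, u / q ^ k < d ∧ d ≤ nx u / q ^ k := by
    intro u hu k hk
    obtain ⟨h1, h2, h3, h4, h5⟩ := hnx u hu
    have e1 := iter' hdil (huV u hu).1 k hk
    have e2 := iter' hdil h1 k hk
    apply hD _ _ (Nat.div_le_div_right h2.le)
      ((Nat.div_le_self _ _).trans (by rw [hV, mem_UU] at h1; exact h1.1))
    rw [e1, e2]
    exact fun h => h4 h.symm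
  choose! δ hδ' using hδ
  -- choose the period
  have hex : ∃ i ∈ Finset.range P, J.card ≤
      P * (J.filter (fun u => w / q ^ (i + 1) ≤ u ∧ u < w / q ^ i)).card := by
    by_contra hcon
    push Not at hcon
    have hsum : J.card ≤ ∑ i ∈ Finset.range P,
        (J.filter (fun u => w / q ^ (i + 1) ≤ u ∧ u < w / q ^ i)).card := by
      have hsub : J ⊆ (Finset.range P).biUnion
          (fun i => J.filter (fun u => w / q ^ (i + 1) ≤ u ∧ u < w / q ^ i)) := by
        intro u hu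
        have h1 := (huV u hu).2
        have h2 : u < w / q ^ 0 := by
          have := hnx u hu
          simp; omega
        -- the largest `i` with `u < w / q^i`
        have hex2 : ∃ i, w / q ^ (i + 1) ≤ u := ⟨P - 1, by
          rw [Nat.sub_add_cancel hP0]; exact h1⟩
        set i := Nat.find hex2 with hi
        have hi1 : w / q ^ (i + 1) ≤ u := Nat.find_spec hex2
        have hi2 : i ≤ P - 1 := Nat.find_min' hex2 (by rw [Nat.sub_add_cancel hP0]; exact h1)
        have hi3 : u < w / q ^ i := by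
          rcases Nat.eq_zero_or_pos i with h0 | h0
          · rw [h0]; exact h2
          · obtain ⟨i', hi'⟩ : ∃ i', i = i' + 1 := ⟨i - 1, by omega⟩
            have := Nat.find_min hex2 (show i' < Nat.find hex2 by omega)
            rw [hi']
            omega
        rw [Finset.mem_biUnion]
        refine ⟨i, Finset.mem_range.2 (by omega), Finset.mem_filter.2 ⟨hu, hi1, hi3⟩⟩
      exact (Finset.card_le_card hsub).trans Finset.card_biUnion_le
    have h1 : P * ∑ i ∈ Finset.range P,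
        (J.filter (fun u => w / q ^ (i + 1) ≤ u ∧ u < w / q ^ i)).card < P * J.card := by
      rw [Finset.mul_sum]
      calc ∑ i ∈ Finset.range P,
            P * (J.filter (fun u => w / q ^ (i + 1) ≤ u ∧ u < w / q ^ i)).card
          < ∑ i ∈ Finset.range P, J.card := by
            apply Finset.sum_lt_sum_of_nonempty
            · exact Finset.nonempty_range_iff.2 (by omega)
            · exact hcon
        _ = P * J.card := by rw [Finset.sum_const, Finset.card_range, smul_eq_mul]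
    have := Nat.mul_le_mul_left P hsum
    omega
  obtain ⟨i, hi, hcard⟩ := hex
  rw [Finset.mem_range] at hi
  set A := J.filter (fun u => w / q ^ (i + 1) ≤ u ∧ u < w / q ^ i) with hA
  have hAJ : ∀ u ∈ A, u ∈ J ∧ w / q ^ (i + 1) ≤ u ∧ u < w / q ^ i := fun u hu =>
    ⟨(Finset.mem_filter.1 hu).1, (Finset.mem_filter.1 hu).2.1, (Finset.mem_filter.1 hu).2.2⟩
  refine ⟨A, δ, fun u hu => (huV u (hAJ u hu).1).2, ?_, ?_, hcard⟩
  · intro u hu k hk
    obtain ⟨huJ, h1, h2⟩ := hAJ u hu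
    obtain ⟨d1, d2, d3⟩ := hδ' u huJ k hk
    have hqk : 0 < q ^ k := pow_pos hqpos _
    obtain ⟨n1, n2, n3, n4, n5⟩ := hnx u huJ
    refine ⟨d1, lt_of_le_of_lt (Nat.zero_le _) d2, ?_, ?_⟩
    · have := (Nat.div_lt_iff_lt_mul hqk).1 d2
      rwa [mul_comm] at this
    · have h3 : δ u k * q ^ k ≤ nx u := (Nat.le_div_iff_mul_le hqk).1 d3
      obtain ⟨x, hx, hx1, hx2⟩ := uu_exists (q := q) (K1 := K2) (N := N) (E := E) hq
        (a := u + 1) (by omega)
      have h4 := n5 x hx
      have h5 : q ^ k * δ u k = δ u k * q ^ k := mul_comm _ _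
      omega
  · have key1 : ∀ u ∈ A, ∀ k ≤ K2, w / q ^ (i + 1 + k) < δ u k ∧ δ u k ≤ w / q ^ (i + k) := by
      intro u hu k hk
      obtain ⟨huJ, h1, h2⟩ := hAJ u hu
      obtain ⟨d1, d2, d3⟩ := hδ' u huJ k hk
      obtain ⟨n1, n2, n3, n4, n5⟩ := hnx u huJ
      have h3 : nx u ≤ w / q ^ i := by
        rcases n5 _ (hwV i (by omega)) with h | h
        · omega
        · exact h
      constructor
      · have h4 := Nat.div_le_div_right (c := q ^ k) h1
        rw [Nat.div_div_eq_div_mul, ← pow_add] at h4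
        omega
      · have h4 := Nat.div_le_div_right (c := q ^ k) h3
        rw [Nat.div_div_eq_div_mul, ← pow_add] at h4
        omega
    have key2 : ∀ u ∈ A, ∀ u' ∈ A, ∀ k ≤ K2, u < u' → δ u k < δ u' k := by
      intro u hu u' hu' k hk hlt
      obtain ⟨huJ, h1, h2⟩ := hAJ u hu
      obtain ⟨huJ', h1', h2'⟩ := hAJ u' hu'
      obtain ⟨d1, d2, d3⟩ := hδ' u huJ k hk
      obtain ⟨d1', d2', d3'⟩ := hδ' u' huJ' k hk
      obtain ⟨n1, n2, n3, n4, n5⟩ := hnx u huJ
      have h3 : nx u ≤ u' := by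
        rcases n5 _ (huV u' huJ').1 with h | h
        · omega
        · exact h
      have h4 := Nat.div_le_div_right (c := q ^ k) h3
      omega
    have key3 : ∀ u ∈ A, ∀ u' ∈ A, ∀ k ≤ K2, ∀ k' ≤ K2, k < k' → δ u' k' < δ u k := by
      intro u hu u' hu' k hk k' hk' hlt
      have h1 := (key1 u hu k hk).1
      have h2 := (key1 u' hu' k' hk').2
      have h3 : w / q ^ (i + k') ≤ w / q ^ (i + 1 + k) :=
        Nat.div_le_div_left (Nat.pow_le_pow_right hqpos (by omega)) (by positivity)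
      omega
    intro u hu u' hu' k hk k' hk' he
    have hkk : k = k' := by
      rcases lt_trichotomy k k' with h | h | h
      · have := key3 u hu u' hu' k hk k' hk' h; omega
      · exact h
      · have := key3 u' hu' u hu k' hk' k hk h; omega
    subst hkk
    refine ⟨?_, rfl⟩
    rcases lt_trichotomy u u' with h | h | h
    · have := key2 u hu u' hu' k hk h; omega
    · exact h
    · have := key2 u' hu' u hu k hk h; omega

/-- the number of jumps is at most the number of positions -/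
theorem jumps_card' [CommRing F] (hD : ∀ x y, x ≤ y → y ≤ N → s x ≠ s y → ∃ d ∈ D, x < d ∧ d ≤ y)
    (V : Finset ℕ) (hV : ∀ x ∈ V, x ≤ N) (lo hi : ℕ) : (Jmp V s lo hi).card ≤ D.card := by
  classical
  set J := Jmp V s lo hi with hJ
  have hsucc : ∀ u ∈ J, ∃ v ∈ V, u < v ∧ v ≤ hi ∧ s v ≠ s u ∧
      ∀ x ∈ V, x ≤ u ∨ v ≤ x := fun u hu => (mem_Jmp.1 hu).2.2
  choose! nx hnx using hsucc
  have hd : ∀ u ∈ J, ∃ d ∈ D, u < d ∧ d ≤ nx u := fun u hu => by
    obtain ⟨h1, h2, h3, h4, h5⟩ := hnx u hu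
    exact hD _ _ h2.le (hV _ h1) (fun h => h4 h.symm)
  choose! δ hδ using hd
  apply Finset.card_le_card_of_injOn δ
  · intro u hu
    exact (hδ u hu).1
  · have key : ∀ u ∈ J, ∀ u' ∈ J, u < u' → δ u < δ u' := by
      intro u hu u' hu' hlt
      obtain ⟨a1, a2, a3⟩ := hδ u hu
      obtain ⟨b1, b2, b3⟩ := hδ u' hu'
      have := (hnx u hu).2.2.2.2 u' (mem_Jmp.1 hu').1
      omega
    intro u hu u' hu' he
    rcases lt_trichotomy u u' with h | h | h
    · have := key u hu u' hu' h; omega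
    · exact h
    · have := key u' hu' u hu h; omega

/-- the jumps of the lifted function are at most the jumps of the top scale -/
theorem lifted_card [CommRing F] (V : Finset ℕ) (lo w X : ℕ) (hw : w ∈ V) (T : Finset ℕ)
    (hT : ∀ y ∈ T, 1 ≤ y ∧ lo ≤ X * (y - 1) ∧ X * y ≤ w ∧
      s (lft V (X * y)) ≠ s (lft V (X * (y - 1)))) : T.card ≤ (Jmp V s lo w).card := by
  classical
  have hex : ∀ y ∈ T, ∃ u ∈ Jmp V s lo w, lft V (X * (y - 1)) ≤ u ∧ u < lft V (X * y) := by
    intro y hy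
    obtain ⟨h1, h2, h3, h4⟩ := hT y hy
    have hle : X * (y - 1) ≤ X * y := Nat.mul_le_mul_left _ (by omega)
    obtain ⟨a1, a2, a3⟩ := lft_spec (V := V) (y := X * (y - 1)) hw (by omega)
    obtain ⟨b1, b2, b3⟩ := lft_spec (V := V) (y := X * y) hw h3
    have hab : lft V (X * (y - 1)) ≤ lft V (X * y) :=
      (lft_spec (V := V) (y := X * (y - 1)) b1 (by omega)).2.2
    have hlt : lft V (X * (y - 1)) < lft V (X * y) := by
      rcases hab.lt_or_eq with h | h
      · exact h
      · rw [h] at h4; exact absurd rfl h4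
    obtain ⟨u, hu, h5, h6⟩ := exists_Jmp (lo := lo) (hi := w) a1 b1 hlt (fun h => h4 h.symm)
      (by omega) b3
    exact ⟨u, hu, h5, h6⟩
  choose! u hu using hex
  apply Finset.card_le_card_of_injOn u
  · intro y hy
    exact (hu y hy).1
  · have key : ∀ y ∈ T, ∀ y' ∈ T, y < y' → u y < u y' := by
      intro y hy y' hy' hlt
      obtain ⟨a1, a2, a3⟩ := hu y hy
      obtain ⟨b1, b2, b3⟩ := hu y' hy'
      have h1 := (mem_Jmp.1 b1).1
      have h2 : X * y ≤ X * (y' - 1) := Nat.mul_le_mul_left _ (by omega)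
      obtain ⟨h3, h4, h5, h6⟩ := hT y' hy'
      have hle : X * (y' - 1) ≤ X * y' := Nat.mul_le_mul_left _ (by omega)
      obtain ⟨c1, c2, c3⟩ := lft_spec (V := V) (y := X * (y' - 1)) hw (by omega)
      have h7 := (lft_spec (V := V) (y := X * y) c1 (by omega)).2.2
      omega
    intro y hy y' hy' he
    rcases lt_trichotomy y y' with h | h | h
    · have := key y hy y' hy' h; omega
    · exact h
    · have := key y' hy' y hy h; omega

/-- the lifted function agrees with the function off a small set -/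
theorem lifted_near (hq : 2 ≤ q) (hdil : ∀ R ≤ N, R ∉ E → s (R / q) = s R)
    (hD : ∀ x y, x ≤ y → y ≤ N → s x ≠ s y → ∃ d ∈ D, x < d ∧ d ≤ y)
    {j R : ℕ} (hj : j ≤ K1) (hR : q ^ j * R + E.card * q ^ K1 ≤ N)
    (hne : s (lft (UU q K1 E N) (q ^ j * R)) ≠ s R) :
    ∃ d ∈ D, R < d ∧ d ≤ R + E.card * q ^ K1 := by
  obtain ⟨x, hx, h1, h2⟩ := uu_exists (q := q) (K1 := K1) (N := N) (E := E) hq (a := q ^ j * R) hR
  obtain ⟨a1, a2, a3⟩ := lft_spec hx h1
  set u := lft (UU q K1 E N) (q ^ j * R) with hu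
  have hqj : 0 < q ^ j := pow_pos (by omega) _
  have e1 := iter' hdil a1 j hj
  have h3 : R ≤ u / q ^ j := by
    rw [Nat.le_div_iff_mul_le hqj, mul_comm]; exact a2
  have h4 : u / q ^ j ≤ R + E.card * q ^ K1 := by
    calc u / q ^ j ≤ (q ^ j * R + E.card * q ^ K1) / q ^ j := Nat.div_le_div_right (by omega)
      _ = R + E.card * q ^ K1 / q ^ j := by
          rw [Nat.mul_add_div hqj]
      _ ≤ R + E.card * q ^ K1 := Nat.add_le_add_left (Nat.div_le_self _ _) _
  obtain ⟨d, hd, h5, h6⟩ := hD R (u / q ^ j) h3 (by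
    have h7 : u / q ^ j ≤ u := Nat.div_le_self _ _
    have h8 := (mem_UU.1 a1).1
    omega) (by rw [e1]; exact fun h => hne h.symm)
  exact ⟨d, hd, h5, by omega⟩

end

section
variable {k : Type} [CommRing k]
open Pool.Agent.H323R2.Gen (pc)

/-- the series with prescribed partial sums -/
noncomputable def ser (t : ℕ → k) : PowerSeries k := PowerSeries.mk t * (1 - PowerSeries.X)

lemma val_ser (t : ℕ → k) (R : ℕ) : val (ser t) R = t R := by
  have hone : PowerSeries.mk (1 : ℕ → k) * (1 - PowerSeries.X) = 1 :=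
    PowerSeries.mk_one_mul_one_sub_eq_one k
  have e : PowerSeries.mk t * (1 - PowerSeries.X) * PowerSeries.mk (1 : ℕ → k) =
      PowerSeries.mk t := by
    linear_combination (PowerSeries.mk t) * hone
  unfold val ser
  rw [e, PowerSeries.coeff_mk]

lemma coeff_ser_succ (t : ℕ → k) (R : ℕ) :
    PowerSeries.coeff (R + 1) (ser t) = t (R + 1) - t R := by
  have h := val_succ (ser t) R
  rw [val_ser, val_ser] at h
  rw [h]; ring

end

end Pool.Agent.TH842.A3
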