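import Pool.Agent.H52.V.S8.TH842.A3.Core
import Pool.Agent.H52.V.S8.TH842.A3.Lift

/-!
The abstract single prime theorem: many levels force many jumps.
-/

set_option autoImplicit false

namespace Pool.Agent.TH842.A3

open Finset
open Pool.Agent.H393R2.DC (UU mem_UU compl_card)
open H393R2.DE (Jmp mem_Jmp exists_Jmp uu_exists lft lft_spec)
open Pool.Agent.H323R2.Gen (pc)

/-- number of nonzero coefficients used -/
def Mb (d m : ℕ) : ℕ := 1 + d * (m + 2) + m

/-- the constant of the selection of levels -/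
def cl (d : ℕ) : ℕ := 2 * (8 * (hh d d + 1) + 1)

theorem single_abs {k : Type} [Field k] (f : Polynomial k) (d : ℕ) (hd1 : 1 ≤ d)
    (hd : f.natDegree ≤ d) (hf : ∀ a, f.eval a ≠ 0)
    (hchar : ∀ j, 1 ≤ j → j ≤ d → ((j : ℕ) : k) ≠ 0)
    (φ : PowerSeries k) (D E : Finset ℕ) (q N K P m e w : ℕ) (hq : 2 ≤ q) (hP : 1 ≤ P)
    (hDφ : ∀ y ≤ N, PowerSeries.coeff y φ ≠ 0 → y ∈ D) (hDm : D.card ≤ m)
    (hdil : ∀ R ≤ N, R ∉ E → val φ (R / q) = val φ R)
    (hmu : mu N (Polynomial.aeval φ f) ≤ e)
    (hw : w ∈ UU q (K + P) E N) (hwN : w + E.card * q ^ K + 1 ≤ N)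
    (hratio : 6 * Wr d m (Mb d m) ≤ q ^ P)
    (hwbig : q ^ (K + P) * (e + m * (E.card * q ^ K) *
      ((d + 1) * (d * (1 + Mb d m) ^ d)) + 1) ≤ w) :
    K ≤ P * ((d + 1) * (d * ((Jmp (UU q K E N) (val φ) (w / q ^ P) w).card * cl d) + 1)) := by
  classical
  set V := UU q K E N with hV
  set s : ℕ → k := val φ with hs
  set J := Jmp V s (w / q ^ P) w with hJ
  have hqpos : 0 < q := by omega
  have hwV : w ∈ V := by
    rw [hV, mem_UU]
    rw [mem_UU] at hw
    exact ⟨hw.1, fun k hk => hw.2 k (by omega)⟩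
  have hwN' : w ≤ N := (mem_UU.1 hw).1
  have hD : ∀ x y, x ≤ y → y ≤ N → s x ≠ s y → ∃ δ ∈ D, x < δ ∧ δ ≤ y := by
    intro x y hxy hyN hne
    by_contra hcon
    push Not at hcon
    apply hne
    rw [hs]
    symm
    apply val_const φ hxy
    intro u h1 h2
    by_contra h3
    have := hcon u (hDφ u (by omega) h3) h1
    omega
  have hJD : J.card ≤ m := (jumps_card' hD V (fun x hx => by rw [hV, mem_UU] at hx; exact hx.1)
    (w / q ^ P) w).trans hDm
  by_contra hcon
  push Not at hcon
  set L : ℕ := K / P + 1 with hL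
  have hKL : K < P * L := by
    rw [hL]; exact Nat.lt_mul_div_succ K hP
  have hPL : P * (K / P) ≤ K := Nat.mul_div_le K P
  have hPi : ∀ i < L, P * i ≤ K := by
    intro i hi
    have : P * i ≤ P * (K / P) := Nat.mul_le_mul_left _ (by omega)
    omega
  -- the levels
  set z : ℕ → ℕ := fun i => 3 * (w / q ^ (P * (i + 1))) + 3 with hz
  set Γ : ℕ → ℕ := fun i => w / q ^ (P * i) with hΓ
  set E1 : ℕ → Finset ℕ := fun i => (Finset.Ioc (z i) (Γ i)).filter (fun y =>
    s (lft V (q ^ (P * i) * y)) ≠ s (lft V (q ^ (P * i) * (y - 1)))) with hE1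
  have hwin : ∀ i < L, ∀ R, z i ≤ R → R ≤ Γ i → w / q ^ P ≤ q ^ (P * i) * R ∧
      q ^ (P * i) * R ≤ w := by
    intro i _ R h1 h2
    have hqi : 0 < q ^ (P * i) := pow_pos hqpos _
    constructor
    · have h3 : w / q ^ (P * (i + 1)) < R := by
        simp only [hz] at h1
        omega
      have h4 : q ^ (P * (i + 1)) = q ^ P * q ^ (P * i) := by rw [← pow_add]; ring_nf
      rw [h4, ← Nat.div_div_eq_div_mul, Nat.div_lt_iff_lt_mul hqi, mul_comm] at h3
      omega
    · simp only [hΓ] at h2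
      have h3 := (Nat.le_div_iff_mul_le hqi).1 h2
      rw [mul_comm]; exact h3
  have hE1c : ∀ i < L, (E1 i).card ≤ J.card := by
    intro i hi
    rw [hJ]
    apply lifted_card V (w / q ^ P) w (q ^ (P * i)) hwV (E1 i)
    intro y hy
    simp only [hE1] at hy
    rw [Finset.mem_filter, Finset.mem_Ioc] at hy
    refine ⟨by omega, (hwin i hi (y - 1) (by omega) (by omega)).1,
      (hwin i hi y (by omega) (by omega)).2, hy.2⟩
  have hΓz : ∀ i j, i < j → j < L → 3 * Γ j ≤ z i := by
    intro i j hij _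
    simp only [hΓ, hz]
    have h1 : w / q ^ (P * j) ≤ w / q ^ (P * (i + 1)) :=
      Nat.div_le_div_left (Nat.pow_le_pow_right hqpos (Nat.mul_le_mul_left _ (by omega)))
        (by positivity)
    omega
  obtain ⟨κ, hκL, hκm, hκf⟩ := select L J.card (hh d d) (8 * (hh d d + 1)) d z Γ E1
    (fun i _ => by simp only [hz]; omega) hΓz hE1c Nat.lt_two_pow_self.le (by
      by_contra hlt
      push Not at hlt
      have h1 : P * L ≤ P * ((d + 1) * (d * (J.card * cl d) + 1)) := Nat.mul_le_mul_left _ hlt.le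
      omega)
  -- the new function
  have hdisj : ∀ i i', i < i' → i' ≤ d → Γ (κ i') < z (κ i) := by
    intro i i' h1 h2
    have h3 := hΓz (κ i) (κ i') (hκm i i' h1 h2) (hκL i' h2)
    have h4 : 1 ≤ z (κ i) := by simp only [hz]; omega
    omega
  set t : ℕ → k := fun R => if h : ∃ i, i < d ∧ z (κ i) ≤ R ∧ R ≤ Γ (κ i) then
    s (lft V (q ^ (P * κ h.choose) * R)) else s R with ht
  have ht1 : ∀ i < d, ∀ R, z (κ i) ≤ R → R ≤ Γ (κ i) → t R = s (lft V (q ^ (P * κ i) * R)) := by
    intro i hi R h1 h2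
    have hex : ∃ i, i < d ∧ z (κ i) ≤ R ∧ R ≤ Γ (κ i) := ⟨i, hi, h1, h2⟩
    simp only [ht]
    rw [dif_pos hex]
    obtain ⟨c1, c2, c3⟩ := hex.choose_spec
    have : hex.choose = i := by
      rcases lt_trichotomy hex.choose i with h | h | h
      · have := hdisj _ _ h hi.le; omega
      · exact h
      · have := hdisj _ _ h c1.le; omega
    rw [this]
  have ht2 : ∀ R, (¬ ∃ i, i < d ∧ z (κ i) ≤ R ∧ R ≤ Γ (κ i)) → t R = s R := by
    intro R h
    simp only [ht]
    rw [dif_neg h]
  set φ' : PowerSeries k := ser t with hφ'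
  have hcoef : ∀ i < d, ∀ y, z (κ i) < y → y ≤ Γ (κ i) → PowerSeries.coeff y φ' ≠ 0 →
      y ∈ E1 (κ i) := by
    intro i hi y h1 h2 h3
    simp only [hE1]
    rw [Finset.mem_filter, Finset.mem_Ioc]
    refine ⟨⟨h1, h2⟩, fun h4 => h3 ?_⟩
    obtain ⟨y', rfl⟩ : ∃ y', y = y' + 1 := ⟨y - 1, by omega⟩
    rw [hφ', coeff_ser_succ, ht1 i hi (y' + 1) (by omega) h2, ht1 i hi y' (by omega) (by omega)]
    rw [Nat.add_sub_cancel] at h4
    rw [h4, sub_self]
  -- number of coefficients
  have hpcφ : pc N φ ≤ D.card := by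
    unfold pc
    apply Finset.card_le_card
    intro y hy
    rw [Finset.mem_filter, Finset.mem_range] at hy
    exact hDφ y (by omega) hy.2
  have hpc' : pc N φ' ≤ Mb d m := by
    unfold pc
    have hsub : (range (N + 1)).filter (fun n => PowerSeries.coeff n φ' ≠ 0) ⊆
        ({0} ∪ (range d).biUnion (fun i => E1 (κ i) ∪ {z (κ i), Γ (κ i) + 1})) ∪ D := by
      intro y hy
      rw [Finset.mem_filter, Finset.mem_range] at hy
      obtain ⟨hyN, hy⟩ := hy
      rw [Finset.mem_union, Finset.mem_union, Finset.mem_singleton, Finset.mem_biUnion]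
      by_cases hy0 : y = 0
      · exact Or.inl (Or.inl hy0)
      obtain ⟨y', rfl⟩ : ∃ y', y = y' + 1 := ⟨y - 1, by omega⟩
      by_cases hex : ∃ i, i < d ∧ z (κ i) ≤ y' + 1 ∧ y' + 1 ≤ Γ (κ i)
      · obtain ⟨i, hi, h1, h2⟩ := hex
        left; right
        refine ⟨i, Finset.mem_range.2 hi, ?_⟩
        rw [Finset.mem_union]
        rcases h1.eq_or_lt with h3 | h3
        · right; rw [h3]; simp
        · left; exact hcoef i hi _ h3 h2 hy
      · by_cases hex' : ∃ i, i < d ∧ z (κ i) ≤ y' ∧ y' ≤ Γ (κ i)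
        · obtain ⟨i, hi, h1, h2⟩ := hex'
          left; right
          refine ⟨i, Finset.mem_range.2 hi, ?_⟩
          rw [Finset.mem_union]
          right
          have h3 : y' + 1 = Γ (κ i) + 1 := by
            by_contra h4
            exact hex ⟨i, hi, by omega, by omega⟩
          rw [h3]; simp
        · right
          apply hDφ _ (by omega)
          rw [hφ', coeff_ser_succ, ht2 _ hex, ht2 _ hex'] at hy
          intro h0
          apply hy
          rw [hs, val_succ, h0, add_zero, sub_self]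
    refine (Finset.card_le_card hsub).trans ?_
    refine (Finset.card_union_le _ _).trans ?_
    have h1 : ({0} ∪ (range d).biUnion (fun i => E1 (κ i) ∪ {z (κ i), Γ (κ i) + 1})).card ≤
        1 + d * (m + 2) := by
      refine (Finset.card_union_le _ _).trans ?_
      rw [Finset.card_singleton]
      apply Nat.add_le_add_left
      refine Finset.card_biUnion_le.trans ?_
      calc ∑ i ∈ range d, (E1 (κ i) ∪ {z (κ i), Γ (κ i) + 1}).card ≤ ∑ i ∈ range d, (m + 2) := by
            apply Finset.sum_le_sum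
            intro i hi
            rw [Finset.mem_range] at hi
            refine (Finset.card_union_le _ _).trans ?_
            apply Nat.add_le_add ((hE1c _ (hκL i hi.le)).trans hJD)
            exact Finset.card_le_two
        _ = d * (m + 2) := by simp
    unfold Mb
    omega
  -- the exceptional set
  set H' : ℕ := E.card * q ^ K with hH'
  have hnear : mu N (φ' - φ) ≤ m * H' := by
    rw [mu_eq]
    calc _ ≤ (D.biUnion (fun δ => Finset.Ico (δ - H') δ)).card := by
          apply Finset.card_le_card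
          intro R hR
          rw [Finset.mem_filter, Finset.mem_range, val_sub, hφ', val_ser] at hR
          obtain ⟨hRN, hR⟩ := hR
          have hne : t R ≠ s R := fun h => hR (by rw [h, hs, sub_self])
          by_cases hex : ∃ i, i < d ∧ z (κ i) ≤ R ∧ R ≤ Γ (κ i)
          · obtain ⟨i, hi, h1, h2⟩ := hex
            rw [ht1 i hi R h1 h2] at hne
            have h3 := (hwin (κ i) (hκL i hi.le) R h1 h2).2
            obtain ⟨δ, hδ, h4, h5⟩ := lifted_near hq hdil hD (hPi _ (hκL i hi.le))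
              (by omega) hne
            rw [Finset.mem_biUnion]
            refine ⟨δ, hδ, Finset.mem_Ico.2 ⟨by omega, h4⟩⟩
          · exact absurd (ht2 R hex) hne
      _ ≤ ∑ δ ∈ D, (Finset.Ico (δ - H') δ).card := Finset.card_biUnion_le
      _ ≤ ∑ δ ∈ D, H' := by
          apply Finset.sum_le_sum
          intro δ _
          rw [Nat.card_Ico]; omega
      _ = D.card * H' := by rw [Finset.sum_const, smul_eq_mul]
      _ ≤ m * H' := Nat.mul_le_mul_right _ hDm
  set e' : ℕ := e + m * H' * ((d + 1) * (d * (1 + Mb d m) ^ d)) with he'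
  have hmu' : mu N (Polynomial.aeval φ' f) ≤ e' := by
    have e1 : Polynomial.aeval φ' f = Polynomial.aeval φ f +
        (Polynomial.aeval φ' f - Polynomial.aeval φ f) := by ring
    rw [e1]
    refine (mu_add_le _ _ _).trans ?_
    apply Nat.add_le_add hmu
    refine (mu_aeval_sub f d hd φ φ' N (Mb d m) ?_ hpc').trans ?_
    · refine hpcφ.trans (hDm.trans ?_)
      unfold Mb
      omega
    · exact Nat.mul_le_mul_right _ hnear
  -- sizes of the levels
  have hwdiv : ∀ i < L, e' + 1 ≤ w / q ^ (P * (i + 1)) := by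
    intro i hi
    rw [Nat.le_div_iff_mul_le (by positivity)]
    refine le_trans ?_ hwbig
    rw [mul_comm]
    apply Nat.mul_le_mul_right
    apply Nat.pow_le_pow_right hqpos
    have := hPi i hi
    have : P * (i + 1) = P * i + P := by ring
    omega
  refine core_b f d hd1 hd hf hchar φ' m (Mb d m) e' N (fun i => z (κ i)) (fun i => Γ (κ i))
    (fun i => E1 (κ i)) hcoef (fun i hi => (hE1c _ (hκL i hi.le)).trans hJD)
    (fun i j hij hj => hΓz _ _ (hκm i j hij hj) (hκL j hj)) ?_ hpc' hmu' ?_ ?_ ?_ hκf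
  · intro i hi
    simp only [hΓ]
    exact (Nat.div_le_self _ _).trans hwN'
  · intro i hi
    have h1 := hwdiv _ (hκL i hi)
    simp only [hΓ, hz]
    set X := w / q ^ (P * (κ i + 1)) with hX
    have h2 : q ^ P * X ≤ w / q ^ (P * κ i) := by
      rw [Nat.le_div_iff_mul_le (by positivity)]
      calc q ^ P * X * q ^ (P * κ i) = q ^ (P * (κ i + 1)) * X := by
            rw [show P * (κ i + 1) = P * κ i + P by ring, pow_add]; ring
        _ ≤ w := Nat.mul_div_le _ _
    calc Wr d m (Mb d m) * (3 * X + 3) ≤ Wr d m (Mb d m) * (6 * X) :=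
          Nat.mul_le_mul_left _ (by omega)
      _ = 6 * Wr d m (Mb d m) * X := by ring
      _ ≤ q ^ P * X := Nat.mul_le_mul_right _ hratio
      _ ≤ _ := h2
  · intro i hi
    simp only [hz]
    omega
  · have h1 := hwdiv _ (hκL d le_rfl)
    simp only [hz]
    omega

end Pool.Agent.TH842.A3
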