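import Pool.Agent.H52.V.S8.TH842.A3.Mu

/-!
Truncation, shift, series with finite support, Taylor expansion.
-/

set_option autoImplicit false

namespace Pool.Agent.TH842.A3

open Finset
open Pool.Agent.H323R2.Gen (pc pc_pow_le)

section
variable {k : Type} [CommRing k]

/-- truncation: coefficients with index `< m` -/
noncomputable def tr (m : ℕ) (A : PowerSeries k) : PowerSeries k :=
  PowerSeries.mk (fun n => if n < m then PowerSeries.coeff n A else 0)

/-- shift: coefficients with index `≥ m` -/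
noncomputable def sh (m : ℕ) (A : PowerSeries k) : PowerSeries k :=
  PowerSeries.mk (fun n => PowerSeries.coeff (m + n) A)

lemma coeff_tr (m : ℕ) (A : PowerSeries k) (n : ℕ) :
    PowerSeries.coeff n (tr m A) = if n < m then PowerSeries.coeff n A else 0 := by
  simp only [tr, PowerSeries.coeff_mk]

lemma coeff_sh (m : ℕ) (A : PowerSeries k) (n : ℕ) :
    PowerSeries.coeff n (sh m A) = PowerSeries.coeff (m + n) A := by
  simp only [sh, PowerSeries.coeff_mk]

lemma tr_add_sh (m : ℕ) (A : PowerSeries k) : A = tr m A + PowerSeries.X ^ m * sh m A := by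
  ext n
  rw [map_add, coeff_tr, PowerSeries.coeff_X_pow_mul']
  by_cases h : n < m
  · rw [if_pos h, if_neg (by omega), add_zero]
  · rw [if_neg h, if_pos (by omega), coeff_sh, zero_add]
    congr 2
    omega

lemma val_X_pow_mul_add (m : ℕ) (G : PowerSeries k) (r : ℕ) :
    val (PowerSeries.X ^ m * G) (m + r) = val G r := by
  unfold val
  rw [mul_assoc, PowerSeries.coeff_X_pow_mul', if_pos (by omega)]
  congr 1
  congr 1
  omega

lemma val_X_pow_mul_lt (m : ℕ) (G : PowerSeries k) {R : ℕ} (hR : R < m) :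
    val (PowerSeries.X ^ m * G) R = 0 := by
  unfold val
  rw [mul_assoc, PowerSeries.coeff_X_pow_mul', if_neg (by omega)]

/-- the coefficients vanish beyond `a`; the partial sums are `v` from `a` on -/
structure Lim (A : PowerSeries k) (a : ℕ) (v : k) : Prop where
  zero : ∀ n, a < n → PowerSeries.coeff n A = 0
  lim : ∀ R, a ≤ R → val A R = v

lemma Lim.of_zero {A : PowerSeries k} {a : ℕ} (h : ∀ n, a < n → PowerSeries.coeff n A = 0) :
    Lim A a (val A a) :=
  ⟨h, fun _ hR => val_const A hR (fun y h1 _ => h y h1)⟩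

lemma Lim.mono {A : PowerSeries k} {a b : ℕ} {v : k} (h : Lim A a v) (hab : a ≤ b) : Lim A b v :=
  ⟨fun n hn => h.zero n (by omega), fun R hR => h.lim R (by omega)⟩

lemma Lim.C (v : k) : Lim (PowerSeries.C v) 0 v :=
  ⟨fun n hn => by rw [PowerSeries.coeff_C, if_neg (by omega)], fun R _ => val_C v R⟩

lemma Lim.add {A B : PowerSeries k} {a : ℕ} {v w : k} (hA : Lim A a v) (hB : Lim B a w) :
    Lim (A + B) a (v + w) :=
  ⟨fun n hn => by rw [map_add, hA.zero n hn, hB.zero n hn, add_zero],
    fun R hR => by rw [val_add, hA.lim R hR, hB.lim R hR]⟩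

lemma Lim.mul {A B : PowerSeries k} {a b : ℕ} {v w : k} (hA : Lim A a v) (hB : Lim B b w) :
    Lim (A * B) (a + b) (v * w) := by
  constructor
  · intro n hn
    rw [PowerSeries.coeff_mul]
    apply Finset.sum_eq_zero
    intro x hx
    rw [Finset.HasAntidiagonal.mem_antidiagonal] at hx
    rcases Nat.lt_or_ge a x.1 with h | h
    · rw [hA.zero _ h, zero_mul]
    · rw [hB.zero _ (by omega), mul_zero]
  · intro R hR
    rw [val_mul, ← hA.lim R (by omega), val_eq_sum, Finset.sum_mul]
    apply Finset.sum_congr rfl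
    intro y hy
    rcases Nat.lt_or_ge a y with h | h
    · rw [hA.zero _ h, zero_mul, zero_mul]
    · rw [hB.lim (R - y) (by omega)]

lemma Lim.pow {A : PowerSeries k} {a : ℕ} {v : k} (hA : Lim A a v) (i : ℕ) :
    Lim (A ^ i) (i * a) (v ^ i) := by
  induction i with
  | zero =>
    rw [pow_zero, pow_zero, zero_mul]
    have := Lim.C (1 : k)
    rwa [map_one] at this
  | succ i ih =>
    rw [pow_succ, pow_succ]
    have := ih.mul hA
    rw [show (i + 1) * a = i * a + a by ring]
    exact this

lemma Lim.sum {ι : Type} {s : Finset ι} {F : ι → PowerSeries k} {a : ℕ} {v : ι → k}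
    (h : ∀ i ∈ s, Lim (F i) a (v i)) : Lim (∑ i ∈ s, F i) a (∑ i ∈ s, v i) := by
  constructor
  · intro n hn
    rw [map_sum]
    exact Finset.sum_eq_zero (fun i hi => (h i hi).zero n hn)
  · intro R hR
    rw [val_sum]
    exact Finset.sum_congr rfl (fun i hi => (h i hi).lim R hR)

/-- Taylor expansion -/
lemma taylor (D : ℕ) (A : ℕ → PowerSeries k) (x y : PowerSeries k) :
    ∑ j ∈ range D, A j * (x + y) ^ j =
      ∑ i ∈ range D, (∑ j ∈ range D, ((j.choose i : ℕ) : PowerSeries k) * (A j * y ^ (j - i))) *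
        x ^ i := by
  have h1 : ∀ j ∈ range D, A j * (x + y) ^ j =
      ∑ i ∈ range D, ((j.choose i : ℕ) : PowerSeries k) * (A j * y ^ (j - i)) * x ^ i := by
    intro j hj
    rw [Finset.mem_range] at hj
    rw [add_pow, Finset.mul_sum]
    rw [Finset.sum_subset (Finset.range_subset_range.2 (show j + 1 ≤ D by omega))]
    · apply Finset.sum_congr rfl
      intro i _
      ring
    · intro i _ hi
      rw [Finset.mem_range] at hi
      rw [Nat.choose_eq_zero_of_lt (by omega)]
      simp
  rw [Finset.sum_congr rfl h1, Finset.sum_comm]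
  apply Finset.sum_congr rfl
  intro i _
  rw [Finset.sum_mul]

/-- agreement of the coefficients up to `N` -/
def Agr (N : ℕ) (A B : PowerSeries k) : Prop :=
  ∀ n ≤ N, PowerSeries.coeff n A = PowerSeries.coeff n B

lemma Agr.add {N : ℕ} {A B A' B' : PowerSeries k} (h : Agr N A B) (h' : Agr N A' B') :
    Agr N (A + A') (B + B') := fun n hn => by rw [map_add, map_add, h n hn, h' n hn]

lemma Agr.mul {N : ℕ} {A B A' B' : PowerSeries k} (h : Agr N A B) (h' : Agr N A' B') :
    Agr N (A * A') (B * B') := fun n hn => by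
  rw [PowerSeries.coeff_mul, PowerSeries.coeff_mul]
  apply Finset.sum_congr rfl
  intro x hx
  rw [Finset.HasAntidiagonal.mem_antidiagonal] at hx
  rw [h x.1 (by omega), h' x.2 (by omega)]

lemma Agr.pow {N : ℕ} {A B : PowerSeries k} (h : Agr N A B) (i : ℕ) : Agr N (A ^ i) (B ^ i) := by
  induction i with
  | zero => rw [pow_zero, pow_zero]; exact fun _ _ => rfl
  | succ i ih => rw [pow_succ, pow_succ]; exact ih.mul h

lemma Agr.refl (N : ℕ) (A : PowerSeries k) : Agr N A A := fun _ _ => rfl

lemma Agr.sum {N : ℕ} {ι : Type} {s : Finset ι} {F G : ι → PowerSeries k}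
    (h : ∀ i ∈ s, Agr N (F i) (G i)) : Agr N (∑ i ∈ s, F i) (∑ i ∈ s, G i) := fun n hn => by
  rw [map_sum, map_sum]
  exact Finset.sum_congr rfl (fun i hi => h i hi n hn)

lemma pc_of_supp {N : ℕ} {A B : PowerSeries k}
    (h : ∀ n ≤ N, PowerSeries.coeff n A ≠ 0 → PowerSeries.coeff n B ≠ 0) : pc N A ≤ pc N B := by
  classical
  unfold pc
  apply Finset.card_le_card
  intro n hn
  rw [Finset.mem_filter, Finset.mem_range] at *
  exact ⟨hn.1, h n (by omega) hn.2⟩

end

end Pool.Agent.TH842.A3
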